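import Pool.Agent.R59.D2.Basic

set_option autoImplicit false

/-! Asymptotics. -/

namespace Pool.Agent.R59.D2

open Filter Asymptotics

theorem not_bigO {a b : ℝ} (hab : b < a) {f : ℕ → ℝ}
    (h : (fun n : ℕ => (n : ℝ) ^ a) =O[atTop] f) :
    ¬ f =O[atTop] (fun n : ℕ => (n : ℝ) ^ b) := by
  intro h'
  obtain ⟨C, hC⟩ := (h.trans h').bound
  have ht : Tendsto (fun n : ℕ => (n : ℝ) ^ (a - b)) atTop atTop :=
    (tendsto_rpow_atTop (by linarith)).comp tendsto_natCast_atTop_atTop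
  have h1 := ht.eventually (eventually_gt_atTop C)
  have h2 := eventually_gt_atTop (0 : ℕ)
  obtain ⟨n, h3, h4, h5⟩ := (hC.and (h1.and h2)).exists
  have hn : (0 : ℝ) < n := by exact_mod_cast h5
  have hb : (0 : ℝ) < (n : ℝ) ^ b := Real.rpow_pos_of_pos hn b
  have ha : (0 : ℝ) < (n : ℝ) ^ a := Real.rpow_pos_of_pos hn a
  rw [Real.norm_of_nonneg ha.le, Real.norm_of_nonneg hb.le] at h3
  rw [Real.rpow_sub hn, lt_div_iff₀ hb] at h4
  linarith

theorem bigO_of_lower {e K : ℝ} (he : 0 < e) (hK : 0 < K) {f : ℕ → ℕ}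
    (h : ∀ n : ℕ, ((n : ℝ) / K) ^ e - 1 ≤ f n) :
    (fun n : ℕ => (n : ℝ) ^ e) =O[atTop] (fun n => (f n : ℝ)) := by
  apply IsBigO.of_bound (2 * K ^ e)
  have ht : Tendsto (fun n : ℕ => ((n : ℝ) / K) ^ e) atTop atTop :=
    (tendsto_rpow_atTop he).comp (tendsto_natCast_atTop_atTop.atTop_div_const hK)
  filter_upwards [ht.eventually (eventually_ge_atTop 2)] with n hn
  have h1 := h n
  have hKe : (0 : ℝ) < K ^ e := Real.rpow_pos_of_pos hK e
  have h2 : (n : ℝ) ^ e = K ^ e * ((n : ℝ) / K) ^ e := by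
    rw [← Real.mul_rpow hK.le (by positivity)]
    congr 1
    field_simp
  rw [Real.norm_of_nonneg (by positivity), Real.norm_of_nonneg (by positivity), h2]
  nlinarith

/-- lower bound for `ex` from a polynomial family -/
theorem ex_lower {k g d K : ℕ} (hd : 0 < d)
    (h : ∀ a : ℕ, 0 < a → ∀ n : ℕ, K * a ^ d ≤ n → a ≤ ex k g n) (hK : 0 < K) (n : ℕ) :
    ((n : ℝ) / K) ^ ((1 : ℝ) / d) - 1 ≤ ex k g n := by
  have hKr : (0 : ℝ) < K := by exact_mod_cast hK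
  have hx0 : (0 : ℝ) ≤ (n : ℝ) / K := by positivity
  set x : ℝ := ((n : ℝ) / K) ^ ((1 : ℝ) / d) with hx
  have hxn : 0 ≤ x := Real.rpow_nonneg hx0 _
  have hxd : x ^ d = (n : ℝ) / K := by
    rw [hx, ← Real.rpow_natCast, ← Real.rpow_mul hx0]
    have : (1 : ℝ) / d * (d : ℝ) = 1 := by
      field_simp
    rw [this, Real.rpow_one]
  have hfl : ((⌊x⌋₊ : ℕ) : ℝ) ≤ x := Nat.floor_le hxn
  have hlt : x < ((⌊x⌋₊ : ℕ) : ℝ) + 1 := Nat.lt_floor_add_one x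
  have hle : ⌊x⌋₊ ≤ ex k g n := by
    rcases Nat.eq_zero_or_pos ⌊x⌋₊ with h0 | h0
    · omega
    · apply h _ h0
      have h1 : ((⌊x⌋₊ : ℕ) : ℝ) ^ d ≤ x ^ d := pow_le_pow_left₀ (Nat.cast_nonneg _) hfl d
      rw [hxd, le_div_iff₀ hKr] at h1
      have h2 : ((K * ⌊x⌋₊ ^ d : ℕ) : ℝ) ≤ (n : ℝ) := by
        push_cast
        linarith
      exact_mod_cast h2
  have hle' : ((⌊x⌋₊ : ℕ) : ℝ) ≤ (ex k g n : ℝ) := by exact_mod_cast hle
  linarith

end Pool.Agent.R59.D2
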