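import Pool.Agent.R59.D2.Defs

set_option autoImplicit false

namespace Pool.Agent.R59.D2

variable {V W : Type}

/-! ### short cycles -/

def No3 (G : SimpleGraph V) : Prop := ∀ a b c, G.Adj a b → G.Adj b c → G.Adj c a → False

def No4 (G : SimpleGraph V) : Prop :=
  ∀ a b c d, G.Adj a b → G.Adj b c → G.Adj c d → G.Adj d a → a ≠ c → b ≠ d → False

def No5 (G : SimpleGraph V) : Prop :=
  ∀ a b c d e, G.Adj a b → G.Adj b c → G.Adj c d → G.Adj d e → G.Adj e a →
    a ≠ c → a ≠ d → b ≠ d → b ≠ e → c ≠ e → False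

theorem getVert_ne {G : SimpleGraph V} {a : V} {w : G.Walk a a} (hw : w.IsCycle) {i j : ℕ}
    (hi : i < j) (hj : j < w.length) : w.getVert i ≠ w.getVert j := by
  intro h
  have := hw.getVert_injOn' (by simp; omega) (by simp; omega) h
  omega

theorem five_le {G : SimpleGraph V} (h3 : No3 G) (h4 : No4 G) : (5 : ℕ∞) ≤ G.egirth := by
  rw [SimpleGraph.le_egirth]
  intro a w hw
  by_contra hlt
  have hlt' : w.length < 5 := by
    have := not_le.1 hlt
    exact_mod_cast this
  have h3l := hw.three_le_length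
  have hadj : ∀ i < w.length, G.Adj (w.getVert i) (w.getVert (i + 1)) :=
    fun i hi => w.adj_getVert_succ hi
  have hend : w.getVert w.length = w.getVert 0 := by simp
  rcases (by omega : w.length = 3 ∨ w.length = 4) with h | h
  · apply h3 (w.getVert 0) (w.getVert 1) (w.getVert 2) (hadj 0 (by omega)) (hadj 1 (by omega))
    have := hadj 2 (by omega)
    rw [h] at hend
    rwa [hend] at this
  · apply h4 (w.getVert 0) (w.getVert 1) (w.getVert 2) (w.getVert 3) (hadj 0 (by omega))
      (hadj 1 (by omega)) (hadj 2 (by omega)) ?_ (getVert_ne hw (by omega) (by omega))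
      (getVert_ne hw (by omega) (by omega))
    have := hadj 3 (by omega)
    rw [h] at hend
    rwa [hend] at this

theorem six_le {G : SimpleGraph V} (h3 : No3 G) (h4 : No4 G) (h5 : No5 G) :
    (6 : ℕ∞) ≤ G.egirth := by
  rw [SimpleGraph.le_egirth]
  intro a w hw
  by_contra hlt
  have hlt' : w.length < 6 := by
    have := not_le.1 hlt
    exact_mod_cast this
  have h3l := hw.three_le_length
  have hadj : ∀ i < w.length, G.Adj (w.getVert i) (w.getVert (i + 1)) :=
    fun i hi => w.adj_getVert_succ hi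
  have hend : w.getVert w.length = w.getVert 0 := by simp
  rcases (by omega : w.length = 3 ∨ w.length = 4 ∨ w.length = 5) with h | h | h
  · apply h3 (w.getVert 0) (w.getVert 1) (w.getVert 2) (hadj 0 (by omega)) (hadj 1 (by omega))
    have := hadj 2 (by omega)
    rw [h] at hend
    rwa [hend] at this
  · apply h4 (w.getVert 0) (w.getVert 1) (w.getVert 2) (w.getVert 3) (hadj 0 (by omega))
      (hadj 1 (by omega)) (hadj 2 (by omega)) ?_ (getVert_ne hw (by omega) (by omega))
      (getVert_ne hw (by omega) (by omega))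
    have := hadj 3 (by omega)
    rw [h] at hend
    rwa [hend] at this
  · apply h5 (w.getVert 0) (w.getVert 1) (w.getVert 2) (w.getVert 3) (w.getVert 4)
      (hadj 0 (by omega)) (hadj 1 (by omega)) (hadj 2 (by omega)) (hadj 3 (by omega)) ?_
      (getVert_ne hw (by omega) (by omega)) (getVert_ne hw (by omega) (by omega))
      (getVert_ne hw (by omega) (by omega)) (getVert_ne hw (by omega) (by omega))
      (getVert_ne hw (by omega) (by omega))
    have := hadj 4 (by omega)
    rw [h] at hend
    rwa [hend] at this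

/-! ### padding by isolated vertices -/

theorem map_adj' {G : SimpleGraph V} {f : V ↪ W} {x y : W} (h : (G.map f).Adj x y) :
    ∃ u v, G.Adj u v ∧ f u = x ∧ f v = y := (SimpleGraph.map_adj f G x y).1 h

theorem No3.map {G : SimpleGraph V} (h : No3 G) (f : V ↪ W) : No3 (G.map f) := by
  intro a b c h1 h2 h3
  obtain ⟨a1, b1, e1, rfl, rfl⟩ := map_adj' h1
  obtain ⟨b2, c2, e2, hb, rfl⟩ := map_adj' h2
  obtain ⟨c3, a3, e3, hc, ha⟩ := map_adj' h3
  have := f.injective hb; subst this
  have := f.injective hc; subst this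
  have := f.injective ha; subst this
  exact h _ _ _ e1 e2 e3

theorem No4.map {G : SimpleGraph V} (h : No4 G) (f : V ↪ W) : No4 (G.map f) := by
  intro a b c d h1 h2 h3 h4 hac hbd
  obtain ⟨a1, b1, e1, rfl, rfl⟩ := map_adj' h1
  obtain ⟨b2, c2, e2, hb, rfl⟩ := map_adj' h2
  obtain ⟨c3, d3, e3, hc, rfl⟩ := map_adj' h3
  obtain ⟨d4, a4, e4, hd, ha⟩ := map_adj' h4
  have := f.injective hb; subst this
  have := f.injective hc; subst this
  have := f.injective hd; subst this
  have := f.injective ha; subst this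
  exact h _ _ _ _ e1 e2 e3 e4 (fun h => hac (by rw [h])) (fun h => hbd (by rw [h]))

theorem No5.map {G : SimpleGraph V} (h : No5 G) (f : V ↪ W) : No5 (G.map f) := by
  intro a b c d e h1 h2 h3 h4 h5 hac had hbd hbe hce
  obtain ⟨a1, b1, e1, rfl, rfl⟩ := map_adj' h1
  obtain ⟨b2, c2, e2, hb, rfl⟩ := map_adj' h2
  obtain ⟨c3, d3, e3, hc, rfl⟩ := map_adj' h3
  obtain ⟨d4, x4, e4, hd, rfl⟩ := map_adj' h4
  obtain ⟨x5, a5, e5, hx, ha⟩ := map_adj' h5
  have := f.injective hb; subst this
  have := f.injective hc; subst this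
  have := f.injective hd; subst this
  have := f.injective hx; subst this
  have := f.injective ha; subst this
  exact h _ _ _ _ _ e1 e2 e3 e4 e5 (fun h => hac (by rw [h])) (fun h => had (by rw [h]))
    (fun h => hbd (by rw [h])) (fun h => hbe (by rw [h])) (fun h => hce (by rw [h]))

/-- The first coordinate is bounded on segments. -/
theorem seg_fst_le {p q z : ℝ × ℝ} {M : ℝ} (hp : p.1 ≤ M) (hq : q.1 ≤ M)
    (hz : z ∈ segment ℝ p q) : z.1 ≤ M := by
  obtain ⟨a, b, ha, hb, hab, rfl⟩ := hz
  simp only [Prod.fst_add, Prod.smul_fst, smul_eq_mul]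
  have h1 := mul_le_mul_of_nonneg_left hp ha
  have h2 := mul_le_mul_of_nonneg_left hq hb
  have h3 : a * M + b * M = M := by rw [← add_mul, hab, one_mul]
  linarith

theorem Planar.map [Finite V] {n : ℕ} {G : SimpleGraph V} (h : Planar G) (f : V ↪ Fin n) :
    Planar (G.map f) := by
  classical
  obtain ⟨pos, hp⟩ := h
  obtain ⟨M, hM⟩ : ∃ M : ℝ, ∀ v, (pos v).1 ≤ M := by
    obtain ⟨M, hM⟩ := (Set.finite_range (fun v => (pos v).1)).bddAbove
    exact ⟨M, fun v => hM (Set.mem_range_self v)⟩
  let P : Fin n → ℝ × ℝ := fun x =>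
    if hx : ∃ v, f v = x then pos hx.choose else (M + 1 + (x.val : ℝ), 0)
  have hPf : ∀ v, P (f v) = pos v := by
    intro v
    have hx : ∃ u, f u = f v := ⟨v, rfl⟩
    have : hx.choose = v := f.injective hx.choose_spec
    simp only [P, dif_pos hx, this]
  have hPn : ∀ x, (¬ ∃ v, f v = x) → P x = (M + 1 + (x.val : ℝ), 0) := by
    intro x hx
    simp only [P, dif_neg hx]
  refine ⟨P, ⟨?_, ?_, ?_⟩⟩
  · intro x y hxy
    by_cases hx : ∃ v, f v = x <;> by_cases hy : ∃ v, f v = y
    · obtain ⟨u, rfl⟩ := hx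
      obtain ⟨v, rfl⟩ := hy
      rw [hPf, hPf] at hxy
      rw [hp.inj hxy]
    · obtain ⟨u, rfl⟩ := hx
      rw [hPf, hPn y hy] at hxy
      have := hM u
      rw [hxy] at this
      have h0 : (0 : ℝ) ≤ (y.val : ℝ) := Nat.cast_nonneg _
      simp only at this
      linarith
    · obtain ⟨v, rfl⟩ := hy
      rw [hPf, hPn x hx] at hxy
      have := hM v
      rw [← hxy] at this
      have h0 : (0 : ℝ) ≤ (x.val : ℝ) := Nat.cast_nonneg _
      simp only at this
      linarith
    · rw [hPn x hx, hPn y hy] at hxy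
      have h1 : M + 1 + (x.val : ℝ) = M + 1 + (y.val : ℝ) := congrArg Prod.fst hxy
      have h2 : (x.val : ℝ) = (y.val : ℝ) := by linarith
      exact Fin.ext (by exact_mod_cast h2)
  · intro u v w huv hw
    obtain ⟨a, b, hab, rfl, rfl⟩ := map_adj' huv
    rw [hPf, hPf] at hw
    by_cases hx : ∃ c, f c = w
    · obtain ⟨c, rfl⟩ := hx
      rw [hPf] at hw
      exact (hp.vertex a b c hab hw).imp (fun h => by rw [h]) (fun h => by rw [h])
    · have h1 := seg_fst_le (hM a) (hM b) hw
      rw [hPn w hx] at h1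
      have h0 : (0 : ℝ) ≤ (w.val : ℝ) := Nat.cast_nonneg _
      simp only at h1
      linarith
  · intro u v x y huv hxy hne q hq hq'
    obtain ⟨a, b, hab, rfl, rfl⟩ := map_adj' huv
    obtain ⟨c, d, hcd, rfl, rfl⟩ := map_adj' hxy
    rw [hPf, hPf] at hq hq'
    have hne' : s(a, b) ≠ s(c, d) := by
      intro he
      apply hne
      rw [Sym2.eq_iff] at he ⊢
      rcases he with ⟨h1, h2⟩ | ⟨h1, h2⟩
      · left; rw [h1, h2]; exact ⟨rfl, rfl⟩
      · right; rw [h1, h2]; exact ⟨rfl, rfl⟩
    obtain ⟨w, h1, h2, h3⟩ := hp.edge a b c d hab hcd hne' q hq hq'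
    exact ⟨f w, h1.imp (fun h => by rw [h]) (fun h => by rw [h]),
      h2.imp (fun h => by rw [h]) (fun h => by rw [h]), by rw [hPf]; exact h3⟩

/-! ### colourability -/

theorem edist_hom {G : SimpleGraph V} {H : SimpleGraph W} (φ : G →g H) (u v : V) :
    H.edist (φ u) (φ v) ≤ G.edist u v := by
  refine le_iInf fun w => ?_
  have h := SimpleGraph.edist_le (w.map φ)
  rwa [SimpleGraph.Walk.length_map] at h

theorem Colourable.of_map {G : SimpleGraph V} {f : V ↪ W} {a b : ℕ}
    (h : Colourable (G.map f) a b) : Colourable G a b := by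
  obtain ⟨c, h1, h2⟩ := h
  refine ⟨fun v => c (f v), ?_, ?_⟩
  · intro i u hu v hv huv hadj
    exact h1 i hu hv (fun h => huv (f.injective h)) ((SimpleGraph.map_adj_apply).2 hadj)
  · intro j u hu v hv huv
    have h3 := h2 j (f u) hu (f v) hv (fun h => huv (f.injective h))
    refine h3.trans ?_
    let φ : G →g G.map f := ⟨f, fun h => (SimpleGraph.map_adj_apply).2 h⟩
    exact edist_hom φ u v

theorem Colourable.mono {G : SimpleGraph V} {a b b' : ℕ} (h : Colourable G a b) (hb : b ≤ b') :
    Colourable G a b' := by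
  obtain ⟨c, h1, h2⟩ := h
  refine ⟨fun v => Sum.map id (Fin.castLE hb) (c v), ?_, ?_⟩
  · intro i u hu v hv huv
    apply h1 i _ _ huv
    · rw [Set.mem_preimage, Set.mem_singleton_iff] at hu ⊢
      rcases hc : c u with x | x
      · rw [hc] at hu; simpa using hu
      · rw [hc] at hu; simp at hu
    · rw [Set.mem_preimage, Set.mem_singleton_iff] at hv ⊢
      rcases hc : c v with x | x
      · rw [hc] at hv; simpa using hv
      · rw [hc] at hv; simp at hv
  · intro j u hu v hv huv
    rw [Set.mem_preimage, Set.mem_singleton_iff] at hu hv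
    rcases hc : c u with x | x
    · rw [hc] at hu; simp at hu
    rcases hc' : c v with y | y
    · rw [hc'] at hv; simp at hv
    rw [hc] at hu
    rw [hc'] at hv
    simp only [Sum.map_inr, Sum.inr.injEq] at hu hv
    have hxy : x = y := Fin.castLE_injective hb (hu.trans hv.symm)
    subst hxy
    exact h2 x u hc v hc' huv

theorem colourable_card {n : ℕ} (G : SimpleGraph (Fin n)) (a : ℕ) : Colourable G a n := by
  refine ⟨fun v => Sum.inr v, ?_, ?_⟩
  · intro i u hu
    simp at hu
  · intro j u hu v hv huv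
    simp only [Set.mem_preimage, Set.mem_singleton_iff, Sum.inr.injEq] at hu hv
    exact absurd (hu.trans hv.symm) huv

theorem lt_ex {k g n c : ℕ} (G : SimpleGraph (Fin n)) (hG : InP g G) (h : ¬ Colourable G k c) :
    c < ex k g n := by
  by_contra hle
  apply h
  have hne : {c | ∀ G : SimpleGraph (Fin n), InP g G → Colourable G k c}.Nonempty :=
    ⟨n, fun G _ => colourable_card G k⟩
  exact (Nat.sInf_mem hne G hG).mono (not_lt.1 hle)

end Pool.Agent.R59.D2
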