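import Pool.Agent.R59.D2.Basic

set_option autoImplicit false

/-! Graphs obtained from a graph of hubs by adding bundles of paths of length three. -/

namespace Pool.Agent.R59.D2

variable {Hb E : Type}

/-- vertices: hubs, and two inner vertices for each path of each bundle -/
abbrev BV (Hb E : Type) (t : ℕ) : Type := Hb ⊕ (E × Fin t × Bool)

/-- adjacency in the bundle graph -/
def bAdj (H0 : SimpleGraph Hb) (src tgt : E → Hb) (t : ℕ) : BV Hb E t → BV Hb E t → Prop
  | .inl a, .inl b => H0.Adj a b
  | .inl a, .inr (e, _, false) => a = src e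
  | .inl a, .inr (e, _, true) => a = tgt e
  | .inr (e, _, false), .inl a => a = src e
  | .inr (e, _, true), .inl a => a = tgt e
  | .inr (e, j, false), .inr (e', j', true) => e = e' ∧ j = j'
  | .inr (e, j, true), .inr (e', j', false) => e = e' ∧ j = j'
  | .inr (_, _, false), .inr (_, _, false) => False
  | .inr (_, _, true), .inr (_, _, true) => False

/-- the bundle graph -/
def B (H0 : SimpleGraph Hb) (src tgt : E → Hb) (t : ℕ) : SimpleGraph (BV Hb E t) where
  Adj := bAdj H0 src tgt t
  symm := ⟨by
    rintro (a | ⟨e, j, _ | _⟩) (b | ⟨e', j', _ | _⟩) h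
    · exact SimpleGraph.Adj.symm (G := H0) h
    · exact h
    · exact h
    · exact h
    · exact h
    · exact ⟨h.1.symm, h.2.symm⟩
    · exact h
    · exact ⟨h.1.symm, h.2.symm⟩
    · exact h⟩
  loopless := ⟨by
    rintro (a | ⟨e, j, _ | _⟩) h
    · exact H0.loopless.irrefl a h
    · exact h
    · exact h⟩

variable {H0 : SimpleGraph Hb} {src tgt : E → Hb} {t : ℕ}

theorem adj_hub {a b : Hb} : (B H0 src tgt t).Adj (.inl a) (.inl b) ↔ H0.Adj a b := Iff.rfl

theorem adj_px {e : E} {j : Fin t} {v : BV Hb E t} :
    (B H0 src tgt t).Adj (.inr (e, j, false)) v ↔ v = .inl (src e) ∨ v = .inr (e, j, true) := by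
  rcases v with a | ⟨e', j', _ | _⟩
  · constructor
    · intro h; left; rw [show a = src e from h]
    · rintro (h | h)
      · exact Sum.inl.inj h
      · exact absurd h (by simp)
  · constructor
    · intro h; exact absurd h (by intro h; exact h)
    · rintro (h | h)
      · exact absurd h (by simp)
      · exact absurd h (by simp)
  · constructor
    · intro h; right; rw [show e = e' from h.1, show j = j' from h.2]
    · rintro (h | h)
      · exact absurd h (by simp)
      · have h' := Sum.inr.inj h
        exact ⟨(Prod.ext_iff.1 h').1.symm, (Prod.ext_iff.1 (Prod.ext_iff.1 h').2).1.symm⟩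

theorem adj_py {e : E} {j : Fin t} {v : BV Hb E t} :
    (B H0 src tgt t).Adj (.inr (e, j, true)) v ↔ v = .inl (tgt e) ∨ v = .inr (e, j, false) := by
  rcases v with a | ⟨e', j', _ | _⟩
  · constructor
    · intro h; left; rw [show a = tgt e from h]
    · rintro (h | h)
      · exact Sum.inl.inj h
      · exact absurd h (by simp)
  · constructor
    · intro h; right; rw [show e = e' from h.1, show j = j' from h.2]
    · rintro (h | h)
      · exact absurd h (by simp)
      · have h' := Sum.inr.inj h
        exact ⟨(Prod.ext_iff.1 h').1.symm, (Prod.ext_iff.1 (Prod.ext_iff.1 h').2).1.symm⟩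
  · constructor
    · intro h; exact absurd h (by intro h; exact h)
    · rintro (h | h)
      · exact absurd h (by simp)
      · exact absurd h (by simp)

/-! ### girth -/

/-- no triangle through a non-hub -/
theorem no3_aux (hst : ∀ e, src e ≠ tgt e) {x : E × Fin t × Bool} {b c : BV Hb E t}
    (h1 : (B H0 src tgt t).Adj (.inr x) b) (h2 : (B H0 src tgt t).Adj b c)
    (h3 : (B H0 src tgt t).Adj c (.inr x)) : False := by
  obtain ⟨e, j, _ | _⟩ := x
  · have h3' := h3.symm
    rw [adj_px] at h1 h3'
    rcases h1 with rfl | rfl <;> rcases h3' with rfl | rfl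
    · exact h2.ne rfl
    · exact hst e h2
    · exact hst e h2
    · exact h2.ne rfl
  · have h3' := h3.symm
    rw [adj_py] at h1 h3'
    rcases h1 with rfl | rfl <;> rcases h3' with rfl | rfl
    · exact h2.ne rfl
    · exact hst e (show tgt e = src e from h2).symm
    · exact hst e (show tgt e = src e from h2).symm
    · exact h2.ne rfl

theorem no3_B (h0 : No3 H0) (hst : ∀ e, src e ≠ tgt e) : No3 (B H0 src tgt t) := by
  intro a b c h1 h2 h3
  rcases a with a | x
  · rcases b with b | x
    · rcases c with c | x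
      · exact h0 a b c h1 h2 h3
      · exact no3_aux hst h3 h1 h2
    · exact no3_aux hst h2 h3 h1
  · exact no3_aux hst h1 h2 h3

theorem no4_aux (hna : ∀ e, ¬ H0.Adj (src e) (tgt e)) {x : E × Fin t × Bool} {b c d : BV Hb E t}
    (h1 : (B H0 src tgt t).Adj (.inr x) b) (h2 : (B H0 src tgt t).Adj b c)
    (h3 : (B H0 src tgt t).Adj c d) (h4 : (B H0 src tgt t).Adj d (.inr x)) (hac : .inr x ≠ c)
    (hbd : b ≠ d) : False := by
  obtain ⟨e, j, _ | _⟩ := x
  · have h4' := h4.symm
    rw [adj_px] at h1 h4'
    rcases h1 with rfl | rfl <;> rcases h4' with rfl | rfl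
    · exact hbd rfl
    · have h3' := h3.symm
      rw [adj_py] at h3'
      rcases h3' with rfl | rfl
      · exact hna e h2
      · exact hac rfl
    · rw [adj_py] at h2
      rcases h2 with rfl | rfl
      · exact hna e (SimpleGraph.Adj.symm (G := H0) h3)
      · exact hac rfl
    · exact hbd rfl
  · have h4' := h4.symm
    rw [adj_py] at h1 h4'
    rcases h1 with rfl | rfl <;> rcases h4' with rfl | rfl
    · exact hbd rfl
    · have h3' := h3.symm
      rw [adj_px] at h3'
      rcases h3' with rfl | rfl
      · exact hna e (SimpleGraph.Adj.symm (G := H0) h2)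
      · exact hac rfl
    · rw [adj_px] at h2
      rcases h2 with rfl | rfl
      · exact hna e h3
      · exact hac rfl
    · exact hbd rfl

theorem no4_B (h0 : No4 H0) (hna : ∀ e, ¬ H0.Adj (src e) (tgt e)) : No4 (B H0 src tgt t) := by
  intro a b c d h1 h2 h3 h4 hac hbd
  rcases a with a | x
  · rcases b with b | x
    · rcases c with c | x
      · rcases d with d | x
        · exact h0 a b c d h1 h2 h3 h4 (fun h => hac (by rw [h])) (fun h => hbd (by rw [h]))
        · exact no4_aux hna h4 h1 h2 h3 hbd.symm hac
      · exact no4_aux hna h3 h4 h1 h2 hac.symm hbd.symm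
    · exact no4_aux hna h2 h3 h4 h1 hbd hac.symm
  · exact no4_aux hna h1 h2 h3 h4 hac hbd

/-- a common neighbour of two distinct hubs is a hub -/
theorem common_hub {a b : Hb} (hab : a ≠ b) {c : BV Hb E t}
    (h1 : (B H0 src tgt t).Adj (.inl a) c) (h2 : (B H0 src tgt t).Adj c (.inl b)) :
    ∃ c', H0.Adj a c' ∧ H0.Adj c' b := by
  rcases c with c | ⟨e, j, _ | _⟩
  · exact ⟨c, h1, h2⟩
  · exact absurd ((show a = src e from h1).trans (show b = src e from h2).symm) hab
  · exact absurd ((show a = tgt e from h1).trans (show b = tgt e from h2).symm) hab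

theorem no5_aux (hst : ∀ e, src e ≠ tgt e)
    (hn2 : ∀ e c, H0.Adj (src e) c → H0.Adj c (tgt e) → False)
    {x : E × Fin t × Bool} {b c d f : BV Hb E t}
    (h1 : (B H0 src tgt t).Adj (.inr x) b) (h2 : (B H0 src tgt t).Adj b c)
    (h3 : (B H0 src tgt t).Adj c d) (h4 : (B H0 src tgt t).Adj d f)
    (h5 : (B H0 src tgt t).Adj f (.inr x)) (hac : .inr x ≠ c) (had : .inr x ≠ d)
    (hbf : b ≠ f) : False := by
  obtain ⟨e, j, _ | _⟩ := x
  · have h5' := h5.symm
    rw [adj_px] at h1 h5'
    rcases h1 with rfl | rfl <;> rcases h5' with rfl | rfl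
    · exact hbf rfl
    · have h4' := h4.symm
      rw [adj_py] at h4'
      rcases h4' with rfl | rfl
      · obtain ⟨c', g1, g2⟩ := common_hub (hst e) h2 h3
        exact hn2 e c' g1 g2
      · exact had rfl
    · rw [adj_py] at h2
      rcases h2 with rfl | rfl
      · obtain ⟨c', g1, g2⟩ := common_hub (hst e) h4.symm h3.symm
        exact hn2 e c' g1 g2
      · exact hac rfl
    · exact hbf rfl
  · have h5' := h5.symm
    rw [adj_py] at h1 h5'
    rcases h1 with rfl | rfl <;> rcases h5' with rfl | rfl
    · exact hbf rfl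
    · have h4' := h4.symm
      rw [adj_px] at h4'
      rcases h4' with rfl | rfl
      · obtain ⟨c', g1, g2⟩ := common_hub (hst e) h3.symm h2.symm
        exact hn2 e c' g1 g2
      · exact had rfl
    · rw [adj_px] at h2
      rcases h2 with rfl | rfl
      · obtain ⟨c', g1, g2⟩ := common_hub (hst e) h3 h4
        exact hn2 e c' g1 g2
      · exact hac rfl
    · exact hbf rfl

theorem no5_B (h0 : No5 H0) (hst : ∀ e, src e ≠ tgt e)
    (hn2 : ∀ e c, H0.Adj (src e) c → H0.Adj c (tgt e) → False) : No5 (B H0 src tgt t) := by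
  intro a b c d f h1 h2 h3 h4 h5 hac had hbd hbf hcf
  rcases a with a | x
  · rcases b with b | x
    · rcases c with c | x
      · rcases d with d | x
        · rcases f with f | x
          · exact h0 a b c d f h1 h2 h3 h4 h5 (fun h => hac (by rw [h])) (fun h => had (by rw [h]))
              (fun h => hbd (by rw [h])) (fun h => hbf (by rw [h])) (fun h => hcf (by rw [h]))
          · exact no5_aux hst hn2 h5 h1 h2 h3 h4 hbf.symm hcf.symm had
        · exact no5_aux hst hn2 h4 h5 h1 h2 h3 had.symm hbd.symm hcf.symm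
      · exact no5_aux hst hn2 h3 h4 h5 h1 h2 hcf hac.symm hbd.symm
    · exact no5_aux hst hn2 h2 h3 h4 h5 h1 hbd hbf hac.symm
  · exact no5_aux hst hn2 h1 h2 h3 h4 h5 hac had hbf

/-! ### colourings -/

theorem close {V : Type} {G : SimpleGraph V} {u v w : V} (h1 : G.Adj u w) (h2 : G.Adj w v) :
    ¬ 3 ≤ G.edist u v := by
  intro h
  have h3 := G.edist_le (SimpleGraph.Walk.cons h1 (SimpleGraph.Walk.cons h2 SimpleGraph.Walk.nil))
  have h4 := h.trans h3
  simp only [SimpleGraph.Walk.length_cons, SimpleGraph.Walk.length_nil] at h4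
  exact absurd h4 (by decide)

/-- vertices with a common neighbour which are coloured by distance-2 colours are few -/
theorem few {V ι : Type} [Fintype ι] {G : SimpleGraph V} {a k : ℕ} {c : V → Fin a ⊕ Fin k}
    (hc : ∀ j, TwoIndep G (c ⁻¹' {Sum.inr j})) {w : V} {f : ι → V} (hf : Function.Injective f)
    (hw : ∀ i, G.Adj w (f i)) (S : Finset ι) (hS : ∀ i ∈ S, (c (f i)).isRight = true) :
    S.card ≤ k := by
  classical
  have h1 : ∀ i : ι, ∃ j : Option (Fin k), i ∈ S → ∃ j', j = some j' ∧ c (f i) = Sum.inr j' := by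
    intro i
    rcases hci : c (f i) with x | x
    · refine ⟨none, fun hi => ?_⟩
      have := hS i hi
      rw [hci] at this
      simp at this
    · exact ⟨some x, fun _ => ⟨x, rfl, rfl⟩⟩
  choose g hg using h1
  rcases Nat.eq_zero_or_pos k with h0 | hpos
  · subst h0
    rw [Nat.le_zero, Finset.card_eq_zero, Finset.eq_empty_iff_forall_notMem]
    intro i hi
    obtain ⟨j', -, -⟩ := hg i hi
    exact j'.elim0
  · have := Finset.card_le_card_of_injOn (s := S) (t := (Finset.univ : Finset (Fin k)))
      (fun i => (g i).getD ⟨0, hpos⟩) (fun i _ => Finset.mem_coe.2 (Finset.mem_univ _)) ?_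
    · simpa using this
    · intro i hi i' hi' hii
      obtain ⟨j, e1, e2⟩ := hg i hi
      obtain ⟨j', e1', e2'⟩ := hg i' hi'
      simp only [e1, e1', Option.getD_some] at hii
      subst hii
      by_contra hne
      exact close (hw i).symm (hw i') (hc j _ e2 _ e2' (fun h => hne (hf h)))

/-- the ends of a large bundle do not get the same distance-1 colour -/
theorem bundle_ne {k : ℕ} {c : BV Hb E t → Fin 2 ⊕ Fin k}
    (h1 : ∀ i, (B H0 src tgt t).IsIndepSet (c ⁻¹' {Sum.inl i}))
    (h2 : ∀ j, TwoIndep (B H0 src tgt t) (c ⁻¹' {Sum.inr j})) (ht : 2 * k < t) (e : E)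
    {i : Fin 2} (hs : c (.inl (src e)) = Sum.inl i) (hg : c (.inl (tgt e)) = Sum.inl i) : False := by
  classical
  have hind : ∀ u v, (B H0 src tgt t).Adj u v → ∀ l, c u = Sum.inl l → c v = Sum.inl l → False :=
    fun u v huv l hu hv => h1 l hu hv huv.ne huv
  have key : ∀ j : Fin t, (c (.inr (e, j, false))).isRight = true ∨
      (c (.inr (e, j, true))).isRight = true := by
    intro j
    rcases hx : c (.inr (e, j, false)) with x | x
    · rcases hy : c (.inr (e, j, true)) with y | y
      · exfalso
        have a1 : (B H0 src tgt t).Adj (.inl (src e)) (.inr (e, j, false)) := rfl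
        have a2 : (B H0 src tgt t).Adj (.inl (tgt e)) (.inr (e, j, true)) := rfl
        have a3 : (B H0 src tgt t).Adj (.inr (e, j, false)) (.inr (e, j, true)) := ⟨rfl, rfl⟩
        have b1 : x ≠ i := fun h => hind _ _ a1 i hs (by rw [hx, h])
        have b2 : y ≠ i := fun h => hind _ _ a2 i hg (by rw [hy, h])
        have b3 : x ≠ y := fun h => hind _ _ a3 x hx (by rw [hy, h])
        omega
      · right; rfl
    · left; rfl
  have n1 := few h2 (w := .inl (src e)) (f := fun j : Fin t => (.inr (e, j, false) : BV Hb E t))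
    (fun a b h => by simpa using h) (fun _ => rfl)
    (Finset.univ.filter (fun j => (c (.inr (e, j, false))).isRight = true))
    (fun i hi => (Finset.mem_filter.1 hi).2)
  have n2 := few h2 (w := .inl (tgt e)) (f := fun j : Fin t => (.inr (e, j, true) : BV Hb E t))
    (fun a b h => by simpa using h) (fun _ => rfl)
    (Finset.univ.filter (fun j => (c (.inr (e, j, true))).isRight = true))
    (fun i hi => (Finset.mem_filter.1 hi).2)
  have n3 : (Finset.univ : Finset (Fin t)) =
      Finset.univ.filter (fun j => (c (.inr (e, j, false))).isRight = true) ∪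
      Finset.univ.filter (fun j => (c (.inr (e, j, true))).isRight = true) := by
    ext j
    simp only [Finset.mem_univ, Finset.mem_union, Finset.mem_filter, true_and, true_iff]
    exact key j
  have n4 := Finset.card_union_le
    (Finset.univ.filter (fun j : Fin t => (c (.inr (e, j, false))).isRight = true))
    (Finset.univ.filter (fun j : Fin t => (c (.inr (e, j, true))).isRight = true))
  rw [← n3, Finset.card_univ, Fintype.card_fin] at n4
  omega

end Pool.Agent.R59.D2
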