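import Mathlib

/-! Definitions for the problem on distance-2 colours in planar graphs. -/

set_option autoImplicit false

namespace Pool.Agent.R59.D2

/-- `pos` is a straight-line drawing of `G` in the plane without crossings: distinct vertices are
at distinct points, a vertex lies on the segment of an edge only if it is an end of that edge, and
a point common to the segments of two distinct edges is the position of a common end of them. -/
structure IsPlaneDrawing {V : Type} (G : SimpleGraph V) (pos : V → ℝ × ℝ) : Prop where
  inj : Function.Injective pos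
  vertex : ∀ u v w, G.Adj u v → pos w ∈ segment ℝ (pos u) (pos v) → w = u ∨ w = v
  edge : ∀ u v x y, G.Adj u v → G.Adj x y → s(u, v) ≠ s(x, y) →
    ∀ q, q ∈ segment ℝ (pos u) (pos v) → q ∈ segment ℝ (pos x) (pos y) →
      ∃ w, (w = u ∨ w = v) ∧ (w = x ∨ w = y) ∧ q = pos w

/-- `G` is planar: it has a straight-line drawing in the plane without crossings. -/
def Planar {V : Type} (G : SimpleGraph V) : Prop :=
  ∃ pos : V → ℝ × ℝ, IsPlaneDrawing G pos

/-- The class `P_g`: planar graphs of girth at least `g` (forests have infinite girth). -/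
def InP (g : ℕ) {V : Type} (G : SimpleGraph V) : Prop :=
  Planar G ∧ (g : ℕ∞) ≤ G.egirth

/-- `S` is 2-independent: distinct vertices of `S` are at distance at least `3`. -/
def TwoIndep {V : Type} (G : SimpleGraph V) (S : Set V) : Prop :=
  ∀ u ∈ S, ∀ v ∈ S, u ≠ v → 3 ≤ G.edist u v

/-- `G` is `(a, b)`-colourable: its vertices can be partitioned into `a` independent sets and `b`
2-independent sets (possibly empty), the fibres of the map `c`. -/
def Colourable {V : Type} (G : SimpleGraph V) (a b : ℕ) : Prop :=
  ∃ c : V → Fin a ⊕ Fin b, (∀ i, G.IsIndepSet (c ⁻¹' {Sum.inl i})) ∧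
    ∀ j, TwoIndep G (c ⁻¹' {Sum.inr j})

/-- `ex_k(P_g)(n)`: the least `c` such that every `n`-vertex graph in `P_g` is
`(k, c)`-colourable. -/
noncomputable def ex (k g n : ℕ) : ℕ :=
  sInf {c | ∀ G : SimpleGraph (Fin n), InP g G → Colourable G k c}

end Pool.Agent.R59.D2
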