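import Pool.Agent.R59.D2.Basic

set_option autoImplicit false

/-! A rank function with unique lower neighbours excludes cycles. -/

namespace Pool.Agent.R59.D2

variable {V : Type} {G : SimpleGraph V}

/-- adjacent vertices have different ranks and each vertex has at most one lower neighbour -/
structure Ranked (G : SimpleGraph V) (ρ : V → ℕ) : Prop where
  ne : ∀ a b, G.Adj a b → ρ a ≠ ρ b
  uniq : ∀ a b c, G.Adj a b → G.Adj a c → ρ b < ρ a → ρ c < ρ a → b = c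

theorem Ranked.no3 {ρ : V → ℕ} (h : Ranked G ρ) : No3 G := by
  intro a b c h1 h2 h3
  have n1 := h.ne _ _ h1
  have n2 := h.ne _ _ h2
  have n3 := h.ne _ _ h3
  have u1 : ¬ (ρ b < ρ a ∧ ρ c < ρ a) := fun hh => h2.ne (h.uniq a b c h1 h3.symm hh.1 hh.2)
  have u2 : ¬ (ρ a < ρ b ∧ ρ c < ρ b) := fun hh => h3.ne (h.uniq b a c h1.symm h2 hh.1 hh.2).symm
  have u3 : ¬ (ρ a < ρ c ∧ ρ b < ρ c) := fun hh => h1.ne (h.uniq c a b h3 h2.symm hh.1 hh.2)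
  omega

theorem Ranked.no4 {ρ : V → ℕ} (h : Ranked G ρ) : No4 G := by
  intro a b c d h1 h2 h3 h4 hac hbd
  have n1 := h.ne _ _ h1
  have n2 := h.ne _ _ h2
  have n3 := h.ne _ _ h3
  have n4 := h.ne _ _ h4
  have u1 : ¬ (ρ b < ρ a ∧ ρ d < ρ a) := fun hh => hbd (h.uniq a b d h1 h4.symm hh.1 hh.2)
  have u2 : ¬ (ρ a < ρ b ∧ ρ c < ρ b) := fun hh => hac (h.uniq b a c h1.symm h2 hh.1 hh.2)
  have u3 : ¬ (ρ b < ρ c ∧ ρ d < ρ c) := fun hh => hbd (h.uniq c b d h2.symm h3 hh.1 hh.2)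
  have u4 : ¬ (ρ a < ρ d ∧ ρ c < ρ d) := fun hh => hac (h.uniq d a c h4 h3.symm hh.1 hh.2)
  omega

theorem Ranked.no5 {ρ : V → ℕ} (h : Ranked G ρ) : No5 G := by
  intro a b c d e h1 h2 h3 h4 h5 hac had hbd hbe hce
  have n1 := h.ne _ _ h1
  have n2 := h.ne _ _ h2
  have n3 := h.ne _ _ h3
  have n4 := h.ne _ _ h4
  have n5 := h.ne _ _ h5
  have u1 : ¬ (ρ b < ρ a ∧ ρ e < ρ a) := fun hh => hbe (h.uniq a b e h1 h5.symm hh.1 hh.2)
  have u2 : ¬ (ρ a < ρ b ∧ ρ c < ρ b) := fun hh => hac (h.uniq b a c h1.symm h2 hh.1 hh.2)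
  have u3 : ¬ (ρ b < ρ c ∧ ρ d < ρ c) := fun hh => hbd (h.uniq c b d h2.symm h3 hh.1 hh.2)
  have u4 : ¬ (ρ c < ρ d ∧ ρ e < ρ d) := fun hh => hce (h.uniq d c e h3.symm h4 hh.1 hh.2)
  have u5 : ¬ (ρ d < ρ e ∧ ρ a < ρ e) := fun hh => had (h.uniq e d a h4.symm h5 hh.1 hh.2).symm
  omega

end Pool.Agent.R59.D2
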