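import Pool.Agent.R59.D2.Bundle
import Pool.Agent.R59.D2.Forest

set_option autoImplicit false

/-! The graph of girth five. -/

namespace Pool.Agent.R59.D2

namespace H5

variable {m t : ℕ}

/-- hubs: the root `none` and three hubs in each of the `m` blocks -/
abbrev Hub (m : ℕ) : Type := Option (Fin m × Fin 3)

def H0 (m : ℕ) : SimpleGraph (Hub m) where
  Adj
    | none, some _ => True
    | some _, none => True
    | _, _ => False
  symm := ⟨by rintro (_ | a) (_ | b) h <;> exact h⟩
  loopless := ⟨by rintro (_ | a) h <;> exact h⟩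

def rank : Hub m → ℕ
  | none => 0
  | some _ => 1

theorem ranked : Ranked (H0 m) rank := by
  constructor
  · rintro (_ | a) (_ | b) h
    · exact absurd h (by intro h; exact h)
    · simp only [rank]; omega
    · simp only [rank]; omega
    · exact absurd h (by intro h; exact h)
  · rintro (_ | a) (_ | b) (_ | c) h h' h1 h2 <;>
      first
        | rfl
        | (exfalso; simp only [rank] at h1; omega)
        | (exfalso; simp only [rank] at h2; omega)

/-- first and second end of the bundles of a block -/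
def lo : Fin 3 → Fin 3 := ![0, 1, 0]
def hi : Fin 3 → Fin 3 := ![1, 2, 2]

def src (e : Fin m × Fin 3) : Hub m := some (e.1, lo e.2)
def tgt (e : Fin m × Fin 3) : Hub m := some (e.1, hi e.2)

def G (m t : ℕ) : SimpleGraph (BV (Hub m) (Fin m × Fin 3) t) := B (H0 m) src tgt t

theorem girth : No3 (G m t) ∧ No4 (G m t) := by
  have hst : ∀ e : Fin m × Fin 3, src e ≠ tgt e := by
    rintro ⟨i, b⟩ h
    simp only [src, tgt, Option.some.injEq, Prod.mk.injEq, true_and] at h
    revert h
    revert b
    decide
  exact ⟨no3_B ranked.no3 hst, no4_B ranked.no4 (fun e h => h)⟩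

/-! ### colouring -/

theorem not_col (c : ℕ) : ¬ Colourable (G (c + 1) (2 * c + 1)) 2 c := by
  classical
  rintro ⟨f, hf1, hf2⟩
  have key : ∀ i : Fin (c + 1), ∃ k : Fin 3, (f (.inl (some (i, k)))).isRight = true := by
    intro i
    by_contra hcon
    push Not at hcon
    have hl : ∀ k : Fin 3, ∃ x, f (.inl (some (i, k))) = Sum.inl x := by
      intro k
      rcases hx : f (.inl (some (i, k))) with x | x
      · exact ⟨x, rfl⟩
      · exact absurd (by rw [hx]; rfl) (hcon k)
    obtain ⟨x0, h0⟩ := hl 0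
    obtain ⟨x1, h1⟩ := hl 1
    obtain ⟨x2, h2⟩ := hl 2
    have b1 : x0 ≠ x1 := fun h => bundle_ne (src := src) (tgt := tgt) hf1 hf2 (by omega) (i, 0) h0
      (show f (.inl (some (i, 1))) = Sum.inl x0 by rw [h1, h])
    have b2 : x1 ≠ x2 := fun h => bundle_ne (src := src) (tgt := tgt) hf1 hf2 (by omega) (i, 1) h1
      (show f (.inl (some (i, 2))) = Sum.inl x1 by rw [h2, h])
    have b3 : x0 ≠ x2 := fun h => bundle_ne (src := src) (tgt := tgt) hf1 hf2 (by omega) (i, 2) h0
      (show f (.inl (some (i, 2))) = Sum.inl x0 by rw [h2, h])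
    omega
  choose g hg using key
  have n1 := few hf2 (w := .inl none)
    (f := fun i : Fin (c + 1) => (.inl (some (i, g i)) : BV (Hub (c + 1)) _ (2 * c + 1)))
    (fun a b h => by
      simp only [Sum.inl.injEq, Option.some.injEq, Prod.mk.injEq] at h
      exact h.1) (fun _ => trivial) Finset.univ (fun i _ => hg i)
  rw [Finset.card_univ, Fintype.card_fin] at n1
  omega

theorem card_V (a : ℕ) (ha : 0 < a) :
    Fintype.card (BV (Hub a) (Fin a × Fin 3) (2 * (a - 1) + 1)) ≤ 16 * a ^ 2 := by
  have h1 : Fintype.card (BV (Hub a) (Fin a × Fin 3) (2 * (a - 1) + 1)) =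
      (a * 3 + 1) + (a * 3) * ((2 * (a - 1) + 1) * 2) := by
    simp only [Fintype.card_sum, Fintype.card_fin, Fintype.card_prod, Fintype.card_bool,
      Fintype.card_option]
  obtain ⟨b, rfl⟩ : ∃ b, a = b + 1 := ⟨a - 1, by omega⟩
  simp only [Nat.add_sub_cancel] at h1 ⊢
  rw [h1]
  nlinarith [Nat.zero_le b, Nat.zero_le (b ^ 2)]

end H5

end Pool.Agent.R59.D2
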