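import Pool.Agent.R59.D2.G6
import Pool.Agent.R59.D2.Asym

set_option autoImplicit false

namespace Pool.Agent.R59.D2

/-- Transfer of a bad graph to `Fin n`. -/
theorem ex_of_graph {V : Type} [Fintype V] {G : SimpleGraph V} {k g c n : ℕ}
    (hcard : Fintype.card V ≤ n) (hp : Planar G)
    (hg : ∀ f : V ↪ Fin n, (g : ℕ∞) ≤ (G.map f).egirth) (hc : ¬ Colourable G k c) :
    c < ex k g n := by
  obtain ⟨f⟩ := Function.Embedding.nonempty_of_card_le (α := V) (β := Fin n) (by simpa using hcard)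
  exact lt_ex (G.map f) ⟨hp.map f, hg f⟩ (fun h => hc h.of_map)

namespace H6

variable {m k t : ℕ}

/-- coding of the hubs -/
def code : H6 m k → Option (Fin m ⊕ Fin m) ⊕ ((Fin m × Fin k) × Bool)
  | .u => .inl none
  | .r l => .inl (some (.inl l))
  | .s l => .inl (some (.inr l))
  | .h l i => .inr ((l, i), true)
  | .z l i => .inr ((l, i), false)

theorem code_inj : Function.Injective (code (m := m) (k := k)) := by
  rintro (_ | l | l | ⟨l, i⟩ | ⟨l, i⟩) (_ | l' | l' | ⟨l', i'⟩ | ⟨l', i'⟩) h <;>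
    simp_all [code]

noncomputable instance : Fintype (H6 m k) := Fintype.ofInjective _ code_inj

theorem card_H6 : Fintype.card (H6 m k) ≤ 1 + 2 * m + 2 * (m * k) := by
  refine (Fintype.card_le_of_injective _ code_inj).trans ?_
  simp only [Fintype.card_sum, Fintype.card_option, Fintype.card_fin, Fintype.card_prod,
    Fintype.card_bool]
  omega

theorem card_V (a : ℕ) (ha : 0 < a) :
    Fintype.card (BV (H6 a (2 * (a - 1) + 1)) (Fin a × Fin (2 * (a - 1) + 1) × Bool)
      (2 * (a - 1) + 1)) ≤ 23 * a ^ 3 := by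
  have h1 : Fintype.card (BV (H6 a (2 * (a - 1) + 1)) (Fin a × Fin (2 * (a - 1) + 1) × Bool)
      (2 * (a - 1) + 1)) = Fintype.card (H6 a (2 * (a - 1) + 1)) +
      (a * ((2 * (a - 1) + 1) * 2)) * ((2 * (a - 1) + 1) * 2) := by
    simp only [Fintype.card_sum, Fintype.card_fin, Fintype.card_prod, Fintype.card_bool]
  have h2 := card_H6 (m := a) (k := 2 * (a - 1) + 1)
  obtain ⟨b, rfl⟩ : ∃ b, a = b + 1 := ⟨a - 1, by omega⟩
  simp only [Nat.add_sub_cancel] at h1 h2 ⊢
  rw [h1]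
  nlinarith [sq_nonneg b, Nat.zero_le b, Nat.zero_le (b ^ 2), Nat.zero_le (b ^ 3)]

theorem lower (a : ℕ) (ha : 0 < a) (n : ℕ) (hn : 23 * a ^ 3 ≤ n) : a ≤ ex 2 6 n := by
  obtain ⟨b, rfl⟩ : ∃ b, a = b + 1 := ⟨a - 1, by omega⟩
  have hcard := card_V (b + 1) ha
  simp only [Nat.add_sub_cancel] at hcard
  obtain ⟨h3, h4, h5⟩ := girth (m := b + 1) (k := 2 * b + 1) (t := 2 * b + 1)
  exact ex_of_graph (hcard.trans hn) planar (fun f => six_le (h3.map f) (h4.map f) (h5.map f))
    (not_col b)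

end H6

end Pool.Agent.R59.D2
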