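import Pool.Agent.R59.D2.G5Plane
import Pool.Agent.R59.D2.G6Card

set_option autoImplicit false

namespace Pool.Agent.R59.D2

namespace H5

theorem lower (a : ℕ) (ha : 0 < a) (n : ℕ) (hn : 16 * a ^ 2 ≤ n) : a ≤ ex 2 5 n := by
  obtain ⟨b, rfl⟩ : ∃ b, a = b + 1 := ⟨a - 1, by omega⟩
  have hcard := card_V (b + 1) ha
  simp only [Nat.add_sub_cancel] at hcard
  obtain ⟨h3, h4⟩ := girth (m := b + 1) (t := 2 * b + 1)
  exact ex_of_graph (hcard.trans hn) planar (fun f => five_le (h3.map f) (h4.map f)) (not_col b)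

end H5

end Pool.Agent.R59.D2
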