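import Pool.Agent.R59.D2.G5

set_option autoImplicit false

/-! Planarity of the girth five graph: an explicit drawing.  The root is at `(0, 1)`, the hubs are
on the horizontal axis, and the paths of the bundles are nested trapezoids below the axis. -/

namespace Pool.Agent.R59.D2

namespace H5

variable {m t : ℕ}

/-- left and right end of a bundle, relative to its block -/
def lor : Fin 3 → ℝ := ![0, 3, 0]
def hir : Fin 3 → ℝ := ![3, 6, 6]

/-- depth of a path -/
noncomputable def dep (t : ℕ) (b : Fin 3) (j : ℕ) : ℝ := (![0, 0, (t : ℝ)] b) + (j : ℝ) + 1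

/-- the curve of the path: `y = - k * min (x - lo) 1 (hi - x)` -/
structure OnC (t i : ℕ) (b : Fin 3) (j : ℕ) (q : ℝ × ℝ) : Prop where
  left : 7 * (i : ℝ) + lor b ≤ q.1
  right : q.1 ≤ 7 * (i : ℝ) + hir b
  val : q.2 = - (dep t b j * min (q.1 - (7 * (i : ℝ) + lor b)) (min 1 (7 * (i : ℝ) + hir b - q.1)))

theorem lor_nonneg (b : Fin 3) : 0 ≤ lor b := by fin_cases b <;> simp [lor]
theorem hir_le (b : Fin 3) : hir b ≤ 6 := by fin_cases b <;> simp [hir] <;> norm_num
theorem gap (b : Fin 3) : lor b + 3 ≤ hir b := by fin_cases b <;> simp [lor, hir] <;> norm_num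
theorem dep_pos (t : ℕ) (b : Fin 3) (j : ℕ) : 1 ≤ dep t b j := by
  have h1 : (0 : ℝ) ≤ (j : ℝ) := Nat.cast_nonneg _
  have h2 : (0 : ℝ) ≤ (t : ℝ) := Nat.cast_nonneg _
  fin_cases b <;> simp [dep] <;> linarith

theorem curve_unique {t i i' j j' : ℕ} {b b' : Fin 3} (hj : j < t) (hj' : j' < t) {q : ℝ × ℝ}
    (h : OnC t i b j q) (h' : OnC t i' b' j' q) (hq : q.2 ≠ 0) : i = i' ∧ b = b' ∧ j = j' := by
  obtain ⟨l1, r1, v1⟩ := h
  obtain ⟨l2, r2, v2⟩ := h'
  have d1 := dep_pos t b j
  have d2 := dep_pos t b' j'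
  set w := min (q.1 - (7 * (i : ℝ) + lor b)) (min 1 (7 * (i : ℝ) + hir b - q.1)) with hw
  set w' := min (q.1 - (7 * (i' : ℝ) + lor b')) (min 1 (7 * (i' : ℝ) + hir b' - q.1)) with hw'
  have w0 : 0 < w := by
    rcases lt_or_eq_of_le (show 0 ≤ w by
      rw [hw]; exact le_min (by linarith) (le_min zero_le_one (by linarith))) with h | h
    · exact h
    · exact absurd (by rw [v1, ← h]; ring) hq
  have w0' : 0 < w' := by
    rcases lt_or_eq_of_le (show 0 ≤ w' by
      rw [hw']; exact le_min (by linarith) (le_min zero_le_one (by linarith))) with h | h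
    · exact h
    · exact absurd (by rw [v2, ← h]; ring) hq
  have a1 : 0 < q.1 - (7 * (i : ℝ) + lor b) := lt_of_lt_of_le w0 (min_le_left _ _)
  have a2 : 0 < 7 * (i : ℝ) + hir b - q.1 :=
    lt_of_lt_of_le w0 ((min_le_right _ _).trans (min_le_right _ _))
  have a1' : 0 < q.1 - (7 * (i' : ℝ) + lor b') := lt_of_lt_of_le w0' (min_le_left _ _)
  have a2' : 0 < 7 * (i' : ℝ) + hir b' - q.1 :=
    lt_of_lt_of_le w0' ((min_le_right _ _).trans (min_le_right _ _))
  have hl := lor_nonneg b
  have hl' := lor_nonneg b'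
  have hr := hir_le b
  have hr' := hir_le b'
  have hii : i = i' := by
    rcases lt_trichotomy i i' with h | h | h
    · have : (i : ℝ) + 1 ≤ (i' : ℝ) := by exact_mod_cast h
      linarith
    · exact h
    · have : (i' : ℝ) + 1 ≤ (i : ℝ) := by exact_mod_cast h
      linarith
  subst hii
  have hjt : (j : ℝ) + 1 ≤ (t : ℝ) := by exact_mod_cast hj
  have hjt' : (j' : ℝ) + 1 ≤ (t : ℝ) := by exact_mod_cast hj'
  have hj0 : (0 : ℝ) ≤ (j : ℝ) := Nat.cast_nonneg _
  have hj0' : (0 : ℝ) ≤ (j' : ℝ) := Nat.cast_nonneg _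
  have heq : dep t b j * w = dep t b' j' * w' := by linarith
  have same : b = b' → i = i ∧ b = b' ∧ j = j' := by
    intro hb
    subst hb
    have hww : w = w' := rfl
    rw [← hww] at heq
    have h3 : dep t b j = dep t b j' := mul_right_cancel₀ w0.ne' heq
    refine ⟨rfl, rfl, ?_⟩
    unfold dep at h3
    have h4 : (j : ℝ) = (j' : ℝ) := by linarith
    exact_mod_cast h4
  -- comparison of a short bundle with the long one
  have cmp : ∀ (k k' u u' : ℝ), k < k' → 0 < u → u ≤ u' → 0 < k → k * u = k' * u' → False := by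
    intro k k' u u' h1 h2 h3 h4 h5
    have h6 : k * u ≤ k * u' := mul_le_mul_of_nonneg_left h3 h4.le
    have h7 : k * u' < k' * u' := mul_lt_mul_of_pos_right h1 (lt_of_lt_of_le h2 h3)
    linarith
  fin_cases b <;> fin_cases b'
  · exact same rfl
  · exfalso
    simp [lor, hir] at a1 a2 a1' a2'
    linarith
  · exfalso
    apply cmp _ _ _ _ _ w0 _ (by linarith) heq
    · simp [dep]
      linarith
    · rw [hw, hw']
      simp only [lor, hir, Fin.zero_eta, Fin.reduceFinMk, Matrix.cons_val_zero, Matrix.cons_val]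
      refine le_min (min_le_left _ _) (le_min ((min_le_right _ _).trans (min_le_left _ _)) ?_)
      refine (min_le_right _ _).trans ((min_le_right _ _).trans ?_)
      linarith
  · exfalso
    simp [lor, hir] at a1 a2 a1' a2'
    linarith
  · exact same rfl
  · exfalso
    apply cmp _ _ _ _ _ w0 _ (by linarith) heq
    · simp [dep]
      linarith
    · rw [hw, hw']
      simp only [lor, hir, Fin.mk_one, Fin.reduceFinMk, Matrix.cons_val_one, Matrix.cons_val]
      refine le_min ?_ (le_min ((min_le_right _ _).trans (min_le_left _ _))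
        ((min_le_right _ _).trans (min_le_right _ _)))
      refine (min_le_left _ _).trans ?_
      linarith
  · exfalso
    apply cmp _ _ _ _ _ w0' _ (by linarith) heq.symm
    · simp [dep]
      linarith
    · rw [hw, hw']
      simp only [lor, hir, Fin.zero_eta, Fin.reduceFinMk, Matrix.cons_val_zero, Matrix.cons_val]
      refine le_min (min_le_left _ _) (le_min ((min_le_right _ _).trans (min_le_left _ _)) ?_)
      refine (min_le_right _ _).trans ((min_le_right _ _).trans ?_)
      linarith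
  · exfalso
    apply cmp _ _ _ _ _ w0' _ (by linarith) heq.symm
    · simp [dep]
      linarith
    · rw [hw, hw']
      simp only [lor, hir, Fin.mk_one, Fin.reduceFinMk, Matrix.cons_val_one, Matrix.cons_val]
      refine le_min ?_ (le_min ((min_le_right _ _).trans (min_le_left _ _))
        ((min_le_right _ _).trans (min_le_right _ _)))
      refine (min_le_left _ _).trans ?_
      linarith
  · exact same rfl

/-- the drawing -/
noncomputable def pos : BV (Hub m) (Fin m × Fin 3) t → ℝ × ℝ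
  | .inl none => (0, 1)
  | .inl (some (i, k)) => (7 * ((i : ℕ) : ℝ) + 3 * ((k : ℕ) : ℝ), 0)
  | .inr ((i, b), j, false) => (7 * ((i : ℕ) : ℝ) + lor b + 1, - dep t b j)
  | .inr ((i, b), j, true) => (7 * ((i : ℕ) : ℝ) + hir b - 1, - dep t b j)

/-- oriented edges -/
inductive OE (m t : ℕ) : BV (Hub m) (Fin m × Fin 3) t → BV (Hub m) (Fin m × Fin 3) t → Prop
  | rt (i : Fin m) (k : Fin 3) : OE m t (.inl none) (.inl (some (i, k)))
  | s0 (i : Fin m) (b : Fin 3) (j : Fin t) : OE m t (.inl (src (i, b))) (.inr ((i, b), j, false))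
  | s1 (i : Fin m) (b : Fin 3) (j : Fin t) :
      OE m t (.inr ((i, b), j, false)) (.inr ((i, b), j, true))
  | s2 (i : Fin m) (b : Fin 3) (j : Fin t) : OE m t (.inr ((i, b), j, true)) (.inl (tgt (i, b)))

theorem oe_of_adj {x y : BV (Hub m) (Fin m × Fin 3) t} (h : (G m t).Adj x y) :
    OE m t x y ∨ OE m t y x := by
  have aux : ∀ (e : (Fin m × Fin 3) × Fin t × Bool) (y : BV (Hub m) (Fin m × Fin 3) t),
      (G m t).Adj (.inr e) y → OE m t (.inr e) y ∨ OE m t y (.inr e) := by
    rintro ⟨⟨i, b⟩, j, _ | _⟩ y h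
    · rcases adj_px.1 h with rfl | rfl
      · exact Or.inr (OE.s0 i b j)
      · exact Or.inl (OE.s1 i b j)
    · rcases adj_py.1 h with rfl | rfl
      · exact Or.inl (OE.s2 i b j)
      · exact Or.inr (OE.s1 i b j)
  rcases x with a | x
  · rcases y with b | y
    · rcases a with _ | ⟨i, k⟩ <;> rcases b with _ | ⟨i', k'⟩
      · exact absurd h (by intro h; exact h)
      · exact Or.inl (OE.rt i' k')
      · exact Or.inr (OE.rt i k)
      · exact absurd h (by intro h; exact h)
    · exact (aux y _ h.symm).symm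
  · exact aux x y h

theorem pos_src (i : Fin m) (b : Fin 3) :
    pos (t := t) (.inl (src (i, b))) = (7 * ((i : ℕ) : ℝ) + lor b, 0) := by
  fin_cases b <;> simp [src, pos, lo, lor]

theorem pos_tgt (i : Fin m) (b : Fin 3) :
    pos (t := t) (.inl (tgt (i, b))) = (7 * ((i : ℕ) : ℝ) + hir b, 0) := by
  fin_cases b <;> simp [tgt, pos, hi, hir] <;> norm_num

theorem mem_seg' {p r q : ℝ × ℝ} (hq : q ∈ segment ℝ p r) :
    ∃ s : ℝ, 0 ≤ s ∧ s ≤ 1 ∧ q.1 = (1 - s) * p.1 + s * r.1 ∧ q.2 = (1 - s) * p.2 + s * r.2 := by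
  obtain ⟨a, b, ha, hb, hab, rfl⟩ := hq
  refine ⟨b, hb, by linarith, ?_, ?_⟩
  · have : a = 1 - b := by linarith
    subst this
    simp
  · have : a = 1 - b := by linarith
    subst this
    simp

theorem seg0 {i : Fin m} {b : Fin 3} {j : Fin t} {q : ℝ × ℝ}
    (hq : q ∈ segment ℝ (pos (t := t) (.inl (src (i, b)))) (pos (m := m) (.inr ((i, b), j, false)))) :
    ∃ s : ℝ, 0 ≤ s ∧ s ≤ 1 ∧ q = (7 * ((i : ℕ) : ℝ) + lor b + s, - (dep t b j * s)) := by
  obtain ⟨s, h0, h1, e1, e2⟩ := mem_seg' hq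
  refine ⟨s, h0, h1, ?_⟩
  rw [pos_src] at e1 e2
  simp only [pos] at e1 e2
  apply Prod.ext
  · rw [e1]; ring
  · rw [e2]; ring

theorem seg1 {i : Fin m} {b : Fin 3} {j : Fin t} {q : ℝ × ℝ}
    (hq : q ∈ segment ℝ (pos (m := m) (t := t) (.inr ((i, b), j, false)))
      (pos (m := m) (.inr ((i, b), j, true)))) :
    7 * ((i : ℕ) : ℝ) + lor b + 1 ≤ q.1 ∧ q.1 ≤ 7 * ((i : ℕ) : ℝ) + hir b - 1 ∧
      q.2 = - dep t b j := by
  obtain ⟨s, h0, h1, e1, e2⟩ := mem_seg' hq
  simp only [pos] at e1 e2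
  have hg := gap b
  refine ⟨?_, ?_, ?_⟩
  · rw [e1]; nlinarith
  · rw [e1]; nlinarith
  · rw [e2]; ring

theorem seg2 {i : Fin m} {b : Fin 3} {j : Fin t} {q : ℝ × ℝ}
    (hq : q ∈ segment ℝ (pos (m := m) (.inr ((i, b), j, true))) (pos (t := t) (.inl (tgt (i, b))))) :
    ∃ s : ℝ, 0 ≤ s ∧ s ≤ 1 ∧ q = (7 * ((i : ℕ) : ℝ) + hir b - s, - (dep t b j * s)) := by
  obtain ⟨s, h0, h1, e1, e2⟩ := mem_seg' hq
  refine ⟨1 - s, by linarith, by linarith, ?_⟩
  rw [pos_tgt] at e1 e2
  simp only [pos] at e1 e2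
  apply Prod.ext
  · rw [e1]; ring
  · rw [e2]; ring

theorem segr {i : Fin m} {k : Fin 3} {q : ℝ × ℝ}
    (hq : q ∈ segment ℝ (pos (m := m) (t := t) (.inl none)) (pos (m := m) (t := t) (.inl (some (i, k))))) :
    ∃ s : ℝ, 0 ≤ s ∧ s ≤ 1 ∧ q = (s * (7 * ((i : ℕ) : ℝ) + 3 * ((k : ℕ) : ℝ)), 1 - s) := by
  obtain ⟨s, h0, h1, e1, e2⟩ := mem_seg' hq
  refine ⟨s, h0, h1, ?_⟩
  simp only [pos] at e1 e2
  apply Prod.ext
  · rw [e1]; ring
  · rw [e2]; ring

theorem onC0 {i : ℕ} {b : Fin 3} {j : ℕ} {s : ℝ} (h0 : 0 ≤ s) (h1 : s ≤ 1) :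
    OnC t i b j (7 * (i : ℝ) + lor b + s, - (dep t b j * s)) := by
  have hg := gap b
  refine ⟨by simp only; linarith, by simp only; linarith, ?_⟩
  simp only
  have : min (7 * (i : ℝ) + lor b + s - (7 * (i : ℝ) + lor b))
      (min 1 (7 * (i : ℝ) + hir b - (7 * (i : ℝ) + lor b + s))) = s := by
    rw [min_eq_left]
    · ring
    · exact le_min (by linarith) (by linarith)
  rw [this]

theorem onC2 {i : ℕ} {b : Fin 3} {j : ℕ} {s : ℝ} (h0 : 0 ≤ s) (h1 : s ≤ 1) :
    OnC t i b j (7 * (i : ℝ) + hir b - s, - (dep t b j * s)) := by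
  have hg := gap b
  refine ⟨by simp only; linarith, by simp only; linarith, ?_⟩
  simp only
  have : min (7 * (i : ℝ) + hir b - s - (7 * (i : ℝ) + lor b))
      (min 1 (7 * (i : ℝ) + hir b - (7 * (i : ℝ) + hir b - s))) = s := by
    rw [min_eq_right, min_eq_right]
    · ring
    · linarith
    · exact (min_le_right _ _).trans (by linarith)
  rw [this]

theorem onC1 {i : ℕ} {b : Fin 3} {j : ℕ} {q : ℝ × ℝ} (h0 : 7 * (i : ℝ) + lor b + 1 ≤ q.1)
    (h1 : q.1 ≤ 7 * (i : ℝ) + hir b - 1) (h2 : q.2 = - dep t b j) : OnC t i b j q := by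
  refine ⟨by linarith, by linarith, ?_⟩
  have : min (q.1 - (7 * (i : ℝ) + lor b)) (min 1 (7 * (i : ℝ) + hir b - q.1)) = 1 := by
    rw [min_eq_right, min_eq_left]
    · linarith
    · exact (min_le_left _ _).trans (by linarith)
  rw [this, h2, mul_one]

/-- a point of an edge below the axis is on the curve of its path -/
theorem below {x y : BV (Hub m) (Fin m × Fin 3) t} (h : OE m t x y) {q : ℝ × ℝ}
    (hq : q ∈ segment ℝ (pos x) (pos y)) (hlt : q.2 < 0) :
    ∃ (i : Fin m) (b : Fin 3) (j : Fin t), OnC t i b j q ∧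
      ((x = .inl (src (i, b)) ∧ y = .inr ((i, b), j, false)) ∨
       (x = .inr ((i, b), j, false) ∧ y = .inr ((i, b), j, true)) ∨
       (x = .inr ((i, b), j, true) ∧ y = .inl (tgt (i, b)))) := by
  cases h with
  | rt i k =>
    obtain ⟨s, h0, h1, rfl⟩ := segr hq
    simp only at hlt
    linarith
  | s0 i b j =>
    obtain ⟨s, h0, h1, rfl⟩ := seg0 hq
    exact ⟨i, b, j, onC0 h0 h1, Or.inl ⟨rfl, rfl⟩⟩
  | s1 i b j =>
    obtain ⟨h0, h1, h2⟩ := seg1 hq
    exact ⟨i, b, j, onC1 h0 h1 h2, Or.inr (Or.inl ⟨rfl, rfl⟩)⟩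
  | s2 i b j =>
    obtain ⟨s, h0, h1, rfl⟩ := seg2 hq
    exact ⟨i, b, j, onC2 h0 h1, Or.inr (Or.inr ⟨rfl, rfl⟩)⟩

/-- a point of an edge on the axis is an end of the edge -/
theorem axis {x y : BV (Hub m) (Fin m × Fin 3) t} (h : OE m t x y) {q : ℝ × ℝ}
    (hq : q ∈ segment ℝ (pos x) (pos y)) (h0 : q.2 = 0) : q = pos x ∨ q = pos y := by
  cases h with
  | rt i k =>
    obtain ⟨s, g0, g1, rfl⟩ := segr hq
    right
    simp only at h0
    have : s = 1 := by linarith
    subst this
    simp only [pos]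
    apply Prod.ext <;> simp
  | s0 i b j =>
    obtain ⟨s, g0, g1, rfl⟩ := seg0 hq
    left
    have hd := dep_pos t b j
    simp only [neg_eq_zero, mul_eq_zero] at h0
    rcases h0 with h0 | h0
    · linarith
    · subst h0
      rw [pos_src]
      apply Prod.ext <;> simp
  | s1 i b j =>
    obtain ⟨g0, g1, g2⟩ := seg1 hq
    have hd := dep_pos t b j
    linarith
  | s2 i b j =>
    obtain ⟨s, g0, g1, rfl⟩ := seg2 hq
    right
    have hd := dep_pos t b j
    simp only [neg_eq_zero, mul_eq_zero] at h0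
    rcases h0 with h0 | h0
    · linarith
    · subst h0
      rw [pos_tgt]
      apply Prod.ext <;> simp

/-- a point of an edge above the axis belongs to an edge at the root -/
theorem above {x y : BV (Hub m) (Fin m × Fin 3) t} (h : OE m t x y) {q : ℝ × ℝ}
    (hq : q ∈ segment ℝ (pos x) (pos y)) (h0 : 0 < q.2) :
    ∃ (i : Fin m) (k : Fin 3) (s : ℝ), x = .inl none ∧ y = .inl (some (i, k)) ∧ 0 ≤ s ∧ s < 1 ∧
      q = (s * (7 * ((i : ℕ) : ℝ) + 3 * ((k : ℕ) : ℝ)), 1 - s) := by
  cases h with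
  | rt i k =>
    obtain ⟨s, g0, g1, rfl⟩ := segr hq
    refine ⟨i, k, s, rfl, rfl, g0, ?_, rfl⟩
    simp only at h0
    linarith
  | s0 i b j =>
    obtain ⟨s, g0, g1, rfl⟩ := seg0 hq
    have hd := dep_pos t b j
    simp only at h0
    nlinarith
  | s1 i b j =>
    obtain ⟨g0, g1, g2⟩ := seg1 hq
    have hd := dep_pos t b j
    linarith
  | s2 i b j =>
    obtain ⟨s, g0, g1, rfl⟩ := seg2 hq
    have hd := dep_pos t b j
    simp only at h0
    nlinarith

theorem hub_inj {i i' : Fin m} {k k' : Fin 3}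
    (h : 7 * ((i : ℕ) : ℝ) + 3 * ((k : ℕ) : ℝ) = 7 * ((i' : ℕ) : ℝ) + 3 * ((k' : ℕ) : ℝ)) :
    i = i' ∧ k = k' := by
  have h1 : 7 * (i : ℕ) + 3 * (k : ℕ) = 7 * (i' : ℕ) + 3 * (k' : ℕ) := by exact_mod_cast h
  have h2 := k.isLt
  have h3 := k'.isLt
  constructor
  · apply Fin.ext; omega
  · apply Fin.ext; omega

theorem onC_px (i : Fin m) (b : Fin 3) (j : Fin t) :
    OnC t i b j (pos (m := m) (t := t) (.inr ((i, b), j, false))) := by
  apply onC1
  · simp only [pos]; exact le_refl _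
  · simp only [pos]; have := gap b; linarith
  · simp only [pos]

theorem onC_py (i : Fin m) (b : Fin 3) (j : Fin t) :
    OnC t i b j (pos (m := m) (t := t) (.inr ((i, b), j, true))) := by
  apply onC1
  · simp only [pos]; have := gap b; linarith
  · simp only [pos]; exact le_refl _
  · simp only [pos]

theorem pos_inj : Function.Injective (pos (m := m) (t := t)) := by
  rintro ((_ | ⟨i, k⟩) | ⟨⟨i, b⟩, j, _ | _⟩) ((_ | ⟨i', k'⟩) | ⟨⟨i', b'⟩, j', _ | _⟩) h
  · rfl
  · exfalso
    have h2 := congrArg Prod.snd h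
    simp [pos] at h2
  · exfalso
    have h2 := congrArg Prod.snd h
    have hd := dep_pos t b' j'
    simp only [pos] at h2
    linarith
  · exfalso
    have h2 := congrArg Prod.snd h
    have hd := dep_pos t b' j'
    simp only [pos] at h2
    linarith
  · exfalso
    have h2 := congrArg Prod.snd h
    simp [pos] at h2
  · have h2 := congrArg Prod.fst h
    simp only [pos] at h2
    obtain ⟨rfl, rfl⟩ := hub_inj h2
    rfl
  · exfalso
    have h2 := congrArg Prod.snd h
    have hd := dep_pos t b' j'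
    simp only [pos] at h2
    linarith
  · exfalso
    have h2 := congrArg Prod.snd h
    have hd := dep_pos t b' j'
    simp only [pos] at h2
    linarith
  · exfalso
    have h2 := congrArg Prod.snd h
    have hd := dep_pos t b j
    simp only [pos] at h2
    linarith
  · exfalso
    have h2 := congrArg Prod.snd h
    have hd := dep_pos t b j
    simp only [pos] at h2
    linarith
  · have c1 := onC_px i b j
    have c2 := onC_px i' b' j'
    rw [h] at c1
    obtain ⟨e1, e2, e3⟩ := curve_unique j.isLt j'.isLt c1 c2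
      (by simp only [pos]; have := dep_pos t b' j'; linarith)
    have e1' := Fin.ext e1
    have e3' := Fin.ext e3
    subst e1' e2 e3'
    rfl
  · exfalso
    have c1 := onC_px i b j
    have c2 := onC_py i' b' j'
    rw [h] at c1
    obtain ⟨e1, e2, e3⟩ := curve_unique j.isLt j'.isLt c1 c2
      (by simp only [pos]; have := dep_pos t b' j'; linarith)
    have e1' := Fin.ext e1
    subst e1' e2
    have h2 := congrArg Prod.fst h
    simp only [pos] at h2
    have := gap b
    linarith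
  · exfalso
    have h2 := congrArg Prod.snd h
    have hd := dep_pos t b j
    simp only [pos] at h2
    linarith
  · exfalso
    have h2 := congrArg Prod.snd h
    have hd := dep_pos t b j
    simp only [pos] at h2
    linarith
  · exfalso
    have c1 := onC_py i b j
    have c2 := onC_px i' b' j'
    rw [h] at c1
    obtain ⟨e1, e2, e3⟩ := curve_unique j.isLt j'.isLt c1 c2
      (by simp only [pos]; have := dep_pos t b' j'; linarith)
    have e1' := Fin.ext e1
    subst e1' e2
    have h2 := congrArg Prod.fst h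
    simp only [pos] at h2
    have := gap b
    linarith
  · have c1 := onC_py i b j
    have c2 := onC_py i' b' j'
    rw [h] at c1
    obtain ⟨e1, e2, e3⟩ := curve_unique j.isLt j'.isLt c1 c2
      (by simp only [pos]; have := dep_pos t b' j'; linarith)
    have e1' := Fin.ext e1
    have e3' := Fin.ext e3
    subst e1' e2 e3'
    rfl

theorem oe_vertex {x y w : BV (Hub m) (Fin m × Fin 3) t} (h : OE m t x y)
    (hw : pos w ∈ segment ℝ (pos x) (pos y)) : w = x ∨ w = y := by
  rcases lt_trichotomy (pos w).2 0 with h0 | h0 | h0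
  · obtain ⟨i, b, j, hc, hxy⟩ := below h hw h0
    rcases w with (_ | ⟨i', k'⟩) | ⟨⟨i', b'⟩, j', _ | _⟩
    · simp only [pos] at h0; linarith
    · simp only [pos] at h0; linarith
    · obtain ⟨e1, e2, e3⟩ := curve_unique j'.isLt j.isLt (onC_px i' b' j') hc h0.ne
      have e1' := Fin.ext e1
      have e3' := Fin.ext e3
      subst e1' e2 e3'
      rcases hxy with ⟨rfl, rfl⟩ | ⟨rfl, rfl⟩ | ⟨rfl, rfl⟩
      · right; rfl
      · left; rfl
      · exfalso
        obtain ⟨s, g0, g1, e⟩ := seg2 hw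
        have f1 := congrArg Prod.fst e
        simp only [pos] at f1
        have := gap b'
        linarith
    · obtain ⟨e1, e2, e3⟩ := curve_unique j'.isLt j.isLt (onC_py i' b' j') hc h0.ne
      have e1' := Fin.ext e1
      have e3' := Fin.ext e3
      subst e1' e2 e3'
      rcases hxy with ⟨rfl, rfl⟩ | ⟨rfl, rfl⟩ | ⟨rfl, rfl⟩
      · exfalso
        obtain ⟨s, g0, g1, e⟩ := seg0 hw
        have f1 := congrArg Prod.fst e
        simp only [pos] at f1
        have := gap b'
        linarith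
      · right; rfl
      · left; rfl
  · exact (axis h hw h0).imp (fun e => pos_inj e) (fun e => pos_inj e)
  · obtain ⟨i, k, s, rfl, rfl, g0, g1, e⟩ := above h hw h0
    left
    rcases w with (_ | ⟨i', k'⟩) | ⟨⟨i', b'⟩, j', _ | _⟩
    · rfl
    · simp only [pos] at h0; linarith
    · simp only [pos] at h0; have := dep_pos t b' j'; linarith
    · simp only [pos] at h0; have := dep_pos t b' j'; linarith

theorem oe_edge {x y x' y' : BV (Hub m) (Fin m × Fin 3) t} (h : OE m t x y) (h' : OE m t x' y')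
    (hne : ¬ (x = x' ∧ y = y')) (q : ℝ × ℝ) (hq : q ∈ segment ℝ (pos x) (pos y))
    (hq' : q ∈ segment ℝ (pos x') (pos y')) :
    ∃ w, (w = x ∨ w = y) ∧ (w = x' ∨ w = y') ∧ q = pos w := by
  rcases lt_trichotomy q.2 0 with h0 | h0 | h0
  · obtain ⟨i, b, j, hc, hxy⟩ := below h hq h0
    obtain ⟨i', b', j', hc', hxy'⟩ := below h' hq' h0
    obtain ⟨e1, e2, e3⟩ := curve_unique j.isLt j'.isLt hc hc' h0.ne
    have e1' := Fin.ext e1
    have e3' := Fin.ext e3
    subst e1' e2 e3'
    have hg := gap b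
    have hd := dep_pos t b j
    rcases hxy with ⟨rfl, rfl⟩ | ⟨rfl, rfl⟩ | ⟨rfl, rfl⟩ <;>
      rcases hxy' with ⟨rfl, rfl⟩ | ⟨rfl, rfl⟩ | ⟨rfl, rfl⟩
    · exact absurd ⟨rfl, rfl⟩ hne
    · refine ⟨_, Or.inr rfl, Or.inl rfl, ?_⟩
      obtain ⟨s, g0, g1, rfl⟩ := seg0 hq
      obtain ⟨f0, f1, f2⟩ := seg1 hq'
      simp only at f0 f1 f2
      have hs : s = 1 := by nlinarith
      subst hs
      simp only [pos]
      apply Prod.ext <;> simp
    · exfalso
      obtain ⟨s, g0, g1, rfl⟩ := seg0 hq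
      obtain ⟨s', f0, f1, f2⟩ := seg2 hq'
      have := congrArg Prod.fst f2
      simp only at this
      linarith
    · refine ⟨_, Or.inl rfl, Or.inr rfl, ?_⟩
      obtain ⟨s, g0, g1, rfl⟩ := seg0 hq'
      obtain ⟨f0, f1, f2⟩ := seg1 hq
      simp only at f0 f1 f2
      have hs : s = 1 := by nlinarith
      subst hs
      simp only [pos]
      apply Prod.ext <;> simp
    · exact absurd ⟨rfl, rfl⟩ hne
    · refine ⟨_, Or.inr rfl, Or.inl rfl, ?_⟩
      obtain ⟨s, g0, g1, rfl⟩ := seg2 hq'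
      obtain ⟨f0, f1, f2⟩ := seg1 hq
      simp only at f0 f1 f2
      have hs : s = 1 := by nlinarith
      subst hs
      simp only [pos]
      apply Prod.ext <;> simp
    · exfalso
      obtain ⟨s, g0, g1, rfl⟩ := seg0 hq'
      obtain ⟨s', f0, f1, f2⟩ := seg2 hq
      have := congrArg Prod.fst f2
      simp only at this
      linarith
    · refine ⟨_, Or.inl rfl, Or.inr rfl, ?_⟩
      obtain ⟨s, g0, g1, rfl⟩ := seg2 hq
      obtain ⟨f0, f1, f2⟩ := seg1 hq'
      simp only at f0 f1 f2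
      have hs : s = 1 := by nlinarith
      subst hs
      simp only [pos]
      apply Prod.ext <;> simp
    · exact absurd ⟨rfl, rfl⟩ hne
  · rcases axis h hq h0 with e | e <;> rcases axis h' hq' h0 with e' | e'
    · have := pos_inj (e.symm.trans e')
      exact ⟨x, Or.inl rfl, Or.inl this, e⟩
    · have := pos_inj (e.symm.trans e')
      exact ⟨x, Or.inl rfl, Or.inr this, e⟩
    · have := pos_inj (e.symm.trans e')
      exact ⟨y, Or.inr rfl, Or.inl this, e⟩
    · have := pos_inj (e.symm.trans e')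
      exact ⟨y, Or.inr rfl, Or.inr this, e⟩
  · obtain ⟨i, k, s, rfl, rfl, g0, g1, e⟩ := above h hq h0
    obtain ⟨i', k', s', rfl, rfl, g0', g1', e'⟩ := above h' hq' h0
    refine ⟨_, Or.inl rfl, Or.inl rfl, ?_⟩
    have hs : s = s' := by
      have := congrArg Prod.snd (e.symm.trans e')
      simp only at this
      linarith
    subst hs
    have h3 := congrArg Prod.fst (e.symm.trans e')
    simp only at h3
    rcases eq_or_ne s 0 with hs0 | hs0
    · subst hs0
      rw [e]
      simp [pos]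
    · exfalso
      obtain ⟨rfl, rfl⟩ := hub_inj (mul_left_cancel₀ hs0 h3)
      exact hne ⟨rfl, rfl⟩

theorem planar : Planar (G m t) := by
  refine ⟨pos, ⟨pos_inj, ?_, ?_⟩⟩
  · intro u v w huv hw
    rcases oe_of_adj huv with he | he
    · exact oe_vertex he hw
    · rw [segment_symm] at hw
      exact (oe_vertex he hw).symm
  · intro u v x y huv hxy hne q hq hq'
    rcases oe_of_adj huv with he | he <;> rcases oe_of_adj hxy with he' | he'
    · exact oe_edge he he' (fun a => hne (by rw [a.1, a.2])) q hq hq'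
    · rw [segment_symm ℝ (pos x)] at hq'
      obtain ⟨w, h1, h2, h3⟩ := oe_edge he he'
        (fun a => hne (by rw [a.1, a.2, Sym2.eq_swap])) q hq hq'
      exact ⟨w, h1, h2.symm, h3⟩
    · rw [segment_symm ℝ (pos u)] at hq
      obtain ⟨w, h1, h2, h3⟩ := oe_edge he he'
        (fun a => hne (by rw [a.1, a.2, Sym2.eq_swap])) q hq hq'
      exact ⟨w, h1.symm, h2, h3⟩
    · rw [segment_symm ℝ (pos u)] at hq
      rw [segment_symm ℝ (pos x)] at hq'
      obtain ⟨w, h1, h2, h3⟩ := oe_edge he he'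
        (fun a => hne (by rw [a.1, a.2])) q hq hq'
      exact ⟨w, h1.symm, h2.symm, h3⟩

end H5

end Pool.Agent.R59.D2
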