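import Pool.Agent.R59.D2.Bundle
import Pool.Agent.R59.D2.Plane
import Pool.Agent.R59.D2.Forest

set_option autoImplicit false

/-! The graph of girth six. -/

namespace Pool.Agent.R59.D2

/-- hubs of the girth six graph -/
inductive H6 (m k : ℕ) : Type
  | u : H6 m k
  | r : Fin m → H6 m k
  | s : Fin m → H6 m k
  | h : Fin m → Fin k → H6 m k
  | z : Fin m → Fin k → H6 m k

namespace H6

variable {m k t : ℕ}

/-- adjacency of hubs -/
def adj : H6 m k → H6 m k → Prop
  | .u, .r _ => True
  | .r _, .u => True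
  | .r l, .h l' _ => l = l'
  | .h l' _, .r l => l = l'
  | .s l, .z l' _ => l = l'
  | .z l' _, .s l => l = l'
  | _, _ => False

def H0 (m k : ℕ) : SimpleGraph (H6 m k) where
  Adj := adj
  symm := ⟨by rintro (_ | l | l | ⟨l, i⟩ | ⟨l, i⟩) (_ | l' | l' | ⟨l', i'⟩ | ⟨l', i'⟩) h <;> exact h⟩
  loopless := ⟨by rintro (_ | l | l | ⟨l, i⟩ | ⟨l, i⟩) h <;> exact h⟩

def rank : H6 m k → ℕ
  | .u => 0
  | .r _ => 1
  | .s _ => 0
  | .h _ _ => 2
  | .z _ _ => 1

theorem ranked : Ranked (H0 m k) rank := by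
  constructor
  · rintro (_ | l | l | ⟨l, i⟩ | ⟨l, i⟩) (_ | l' | l' | ⟨l', i'⟩ | ⟨l', i'⟩) h <;>
      first
        | exact absurd h (by intro h; exact h)
        | (simp only [rank]; omega)
  · rintro (_ | l | l | ⟨l, i⟩ | ⟨l, i⟩) (_ | l' | l' | ⟨l', i'⟩ | ⟨l', i'⟩)
      (_ | l'' | l'' | ⟨l'', i''⟩ | ⟨l'', i''⟩) h h' h1 h2 <;>
      first
        | exact absurd h (by intro h; exact h)
        | exact absurd h' (by intro h; exact h)
        | (exfalso; simp only [rank] at h1; omega)
        | (exfalso; simp only [rank] at h2; omega)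
        | rfl
        | (have e1 : _ = _ := h
           have e2 : _ = _ := h'
           subst e1; subst e2; rfl)

/-- sources of the bundles -/
def src : Fin m × Fin k × Bool → H6 m k
  | (l, _, true) => .r l
  | (l, i, false) => .h l i

/-- targets of the bundles -/
def tgt : Fin m × Fin k × Bool → H6 m k
  | (l, i, _) => .z l i

def G (m k t : ℕ) : SimpleGraph (BV (H6 m k) (Fin m × Fin k × Bool) t) := B (H0 m k) src tgt t

theorem girth : No3 (G m k t) ∧ No4 (G m k t) ∧ No5 (G m k t) := by
  have hst : ∀ e : Fin m × Fin k × Bool, src e ≠ tgt e := by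
    rintro ⟨l, i, _ | _⟩ <;> simp [src, tgt]
  refine ⟨no3_B ranked.no3 hst, no4_B ranked.no4 ?_, no5_B ranked.no5 hst ?_⟩
  · rintro ⟨l, i, _ | _⟩ h <;> exact h
  · rintro ⟨l, i, _ | _⟩ (_ | l' | l' | ⟨l', i'⟩ | ⟨l', i'⟩) h h' <;>
      first
        | exact h
        | exact h'

/-! ### planarity -/

/-- level -/
def lv : BV (H6 m k) (Fin m × Fin k × Bool) t → ℤ
  | .inl .u => 0
  | .inl (.r _) => 1
  | .inl (.h _ _) => 2
  | .inl (.z _ _) => 4
  | .inl (.s _) => 5
  | .inr ((_, _, true), _, false) => 2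
  | .inr ((_, _, true), _, true) => 3
  | .inr ((_, _, false), _, false) => 3
  | .inr ((_, _, false), _, true) => 3

/-- height -/
def ht : BV (H6 m k) (Fin m × Fin k × Bool) t → ℕ ×ₗ ℕ ×ₗ ℕ
  | .inl .u => toLex (0, toLex (0, 0))
  | .inl (.r l) => toLex (l.val, toLex (0, 0))
  | .inl (.h l i) => toLex (l.val, toLex (i.val, 0))
  | .inl (.z l i) => toLex (l.val, toLex (i.val, 0))
  | .inl (.s l) => toLex (l.val, toLex (0, 0))
  | .inr ((l, i, true), j, false) => toLex (l.val, toLex (i.val, 1 + j.val))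
  | .inr ((l, i, true), j, true) => toLex (l.val, toLex (i.val, 2 * t + j.val))
  | .inr ((l, i, false), j, false) => toLex (l.val, toLex (i.val, 2 * j.val))
  | .inr ((l, i, false), j, true) => toLex (l.val, toLex (i.val, 2 * j.val + 1))

theorem lex_lt {a b c a' b' c' : ℕ} :
    (toLex (a, toLex (b, c)) : ℕ ×ₗ ℕ ×ₗ ℕ) < toLex (a', toLex (b', c')) ↔
      a < a' ∨ (a = a' ∧ (b < b' ∨ (b = b' ∧ c < c'))) := by
  simp [Prod.Lex.toLex_lt_toLex]

theorem lex_le {a b c a' b' c' : ℕ} :
    (toLex (a, toLex (b, c)) : ℕ ×ₗ ℕ ×ₗ ℕ) ≤ toLex (a', toLex (b', c')) ↔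
      a < a' ∨ (a = a' ∧ (b < b' ∨ (b = b' ∧ c ≤ c'))) := by
  simp [Prod.Lex.toLex_le_toLex]

theorem lex_eq {a b c a' b' c' : ℕ} :
    (toLex (a, toLex (b, c)) : ℕ ×ₗ ℕ ×ₗ ℕ) = toLex (a', toLex (b', c')) ↔
      a = a' ∧ b = b' ∧ c = c' := by
  simp

/-- upward edges between consecutive levels -/
inductive Up (m k t : ℕ) : BV (H6 m k) (Fin m × Fin k × Bool) t →
    BV (H6 m k) (Fin m × Fin k × Bool) t → Prop
  | ur (l : Fin m) : Up m k t (.inl .u) (.inl (.r l))
  | rh (l : Fin m) (i : Fin k) : Up m k t (.inl (.r l)) (.inl (.h l i))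
  | zs (l : Fin m) (i : Fin k) : Up m k t (.inl (.z l i)) (.inl (.s l))
  | rx (l : Fin m) (i : Fin k) (j : Fin t) : Up m k t (.inl (.r l)) (.inr ((l, i, true), j, false))
  | xy (l : Fin m) (i : Fin k) (j : Fin t) :
      Up m k t (.inr ((l, i, true), j, false)) (.inr ((l, i, true), j, true))
  | yz (l : Fin m) (i : Fin k) (j : Fin t) : Up m k t (.inr ((l, i, true), j, true)) (.inl (.z l i))
  | hp (l : Fin m) (i : Fin k) (j : Fin t) : Up m k t (.inl (.h l i)) (.inr ((l, i, false), j, false))
  | qz (l : Fin m) (i : Fin k) (j : Fin t) : Up m k t (.inr ((l, i, false), j, true)) (.inl (.z l i))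

/-- edges inside a level -/
inductive Flat (m k t : ℕ) : BV (H6 m k) (Fin m × Fin k × Bool) t →
    BV (H6 m k) (Fin m × Fin k × Bool) t → Prop
  | pq (l : Fin m) (i : Fin k) (j : Fin t) :
      Flat m k t (.inr ((l, i, false), j, false)) (.inr ((l, i, false), j, true))

theorem adj_inr {x : (Fin m × Fin k × Bool) × Fin t × Bool}
    {y : BV (H6 m k) (Fin m × Fin k × Bool) t} (h : (G m k t).Adj (.inr x) y) :
    Up m k t (.inr x) y ∨ Up m k t y (.inr x) ∨ Flat m k t (.inr x) y ∨ Flat m k t y (.inr x) := by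
  obtain ⟨⟨l, i, b⟩, j, _ | _⟩ := x
  · rcases adj_px.1 h with rfl | rfl
    · cases b
      · exact Or.inr (Or.inl (Up.hp l i j))
      · exact Or.inr (Or.inl (Up.rx l i j))
    · cases b
      · exact Or.inr (Or.inr (Or.inl (Flat.pq l i j)))
      · exact Or.inl (Up.xy l i j)
  · rcases adj_py.1 h with rfl | rfl
    · cases b
      · exact Or.inl (Up.qz l i j)
      · exact Or.inl (Up.yz l i j)
    · cases b
      · exact Or.inr (Or.inr (Or.inr (Flat.pq l i j)))
      · exact Or.inr (Or.inl (Up.xy l i j))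

theorem adj_inl {a b : H6 m k} (h : (H0 m k).Adj a b) :
    Up m k t (.inl a) (.inl b) ∨ Up m k t (.inl b) (.inl a) := by
  rcases a with _ | l | l | ⟨l, i⟩ | ⟨l, i⟩ <;>
  rcases b with _ | l' | l' | ⟨l', i'⟩ | ⟨l', i'⟩
  case u.r => exact Or.inl (Up.ur l')
  case r.u => exact Or.inr (Up.ur l)
  case r.h =>
    have h' : l = l' := h
    subst h'
    exact Or.inl (Up.rh l i')
  case h.r =>
    have h' : l' = l := h
    subst h'
    exact Or.inr (Up.rh l' i)
  case s.z =>
    have h' : l = l' := h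
    subst h'
    exact Or.inr (Up.zs l i')
  case z.s =>
    have h' : l' = l := h
    subst h'
    exact Or.inl (Up.zs l' i)
  all_goals exact absurd h (by intro h; exact h)

theorem adj_cases {x y : BV (H6 m k) (Fin m × Fin k × Bool) t} (h : (G m k t).Adj x y) :
    Up m k t x y ∨ Up m k t y x ∨ Flat m k t x y ∨ Flat m k t y x := by
  rcases x with a | x
  · rcases y with b | y
    · rcases adj_inl (t := t) (show (H0 m k).Adj a b from h) with h1 | h1
      · exact Or.inl h1
      · exact Or.inr (Or.inl h1)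
    · rcases adj_inr h.symm with h1 | h1 | h1 | h1
      · exact Or.inr (Or.inl h1)
      · exact Or.inl h1
      · exact Or.inr (Or.inr (Or.inr h1))
      · exact Or.inr (Or.inr (Or.inl h1))
  · exact adj_inr h

theorem Up.lv {x y : BV (H6 m k) (Fin m × Fin k × Bool) t} (h : Up m k t x y) :
    H6.lv y = H6.lv x + 1 := by
  cases h <;> rfl

theorem Flat.lv {x y : BV (H6 m k) (Fin m × Fin k × Bool) t} (h : Flat m k t x y) :
    H6.lv y = H6.lv x := by
  cases h; rfl

theorem up_of {x y : BV (H6 m k) (Fin m × Fin k × Bool) t} (h : (G m k t).Adj x y)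
    (hl : H6.lv y = H6.lv x + 1) : Up m k t x y := by
  rcases adj_cases h with h1 | h1 | h1 | h1
  · exact h1
  · have := h1.lv; omega
  · have := h1.lv; omega
  · have := h1.lv; omega

theorem cross {x x' y y' : BV (H6 m k) (Fin m × Fin k × Bool) t} (h : Up m k t x x')
    (h' : Up m k t y y') (hl : H6.lv y = H6.lv x) (hlt : ht x < ht y) : ht x' ≤ ht y' := by
  cases h <;> cases h' <;>
    first
      | (exfalso; simp only [H6.lv] at hl; omega)
      | (simp only [ht, lex_lt, lex_le] at hlt ⊢; omega)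
      | (simp only [ht, lex_lt, lex_le, true_and, le_refl, or_true, and_true] at hlt ⊢; omega)

theorem inj {x y : BV (H6 m k) (Fin m × Fin k × Bool) t} (hl : H6.lv x = H6.lv y)
    (hh : ht x = ht y) : x = y := by
  rcases x with (_ | l | l | ⟨l, i⟩ | ⟨l, i⟩) | ⟨⟨l, i, _ | _⟩, j, _ | _⟩ <;>
  rcases y with (_ | l' | l' | ⟨l', i'⟩ | ⟨l', i'⟩) | ⟨⟨l', i', _ | _⟩, j', _ | _⟩ <;>
  first
    | (exfalso; simp only [H6.lv] at hl; omega)
    | (exfalso; simp only [ht, lex_eq] at hh; omega)
    | rfl
    | (simp only [ht, lex_eq] at hh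
       obtain ⟨h1, h2, h3⟩ := hh
       have e1 := Fin.ext h1
       subst e1
       rfl)
    | (simp only [ht, lex_eq] at hh
       obtain ⟨h1, h2, h3⟩ := hh
       have e1 := Fin.ext h1
       have e2 := Fin.ext h2
       subst e1
       subst e2
       rfl)
    | (simp only [ht, lex_eq] at hh
       obtain ⟨h1, h2, h3⟩ := hh
       have e1 := Fin.ext h1
       have e2 := Fin.ext h2
       have e3 : j = j' := Fin.ext (by omega)
       subst e1
       subst e2
       subst e3
       rfl)

theorem flat_vert {x y z : BV (H6 m k) (Fin m × Fin k × Bool) t} (h : Flat m k t x y)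
    (hl : H6.lv z = H6.lv x) (h1 : ht x < ht z) (h2 : ht z < ht y) : False := by
  cases h
  rcases z with (_ | l' | l' | ⟨l', i'⟩ | ⟨l', i'⟩) | ⟨⟨l', i', _ | _⟩, j', _ | _⟩ <;>
  first
    | (simp only [H6.lv] at hl; omega)
    | (simp only [ht, lex_lt] at h1 h2; omega)

theorem layout : IsLayout (G m k t) H6.lv ht := by
  refine ⟨fun x y => inj, ?_, ?_, ?_⟩
  · intro x y h
    rcases adj_cases h with h1 | h1 | h1 | h1
    · exact Or.inr (Or.inl h1.lv)
    · exact Or.inr (Or.inr h1.lv)
    · exact Or.inl h1.lv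
    · exact Or.inl h1.lv.symm
  · intro x y z h hxy hz h1 h2
    rcases adj_cases h with h3 | h3 | h3 | h3
    · have := h3.lv; omega
    · have := h3.lv; omega
    · exact flat_vert h3 hz h1 h2
    · have h4 : ht y < ht x := by
        cases h3
        simp only [ht, lex_lt, true_and]
        omega
      exact absurd (h1.trans h2) (not_lt.2 h4.le)
  · intro x x' y y' h h' hx hy hy' hlt
    exact cross (up_of h hx) (up_of h' (by rw [hy', hy])) hy hlt

instance : Countable (ℕ ×ₗ ℕ ×ₗ ℕ) := inferInstanceAs (Countable (ℕ × ℕ × ℕ))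

theorem planar : Planar (G m k t) := layout.planar

/-! ### colouring -/

theorem not_col (c : ℕ) : ¬ Colourable (G (c + 1) (2 * c + 1) (2 * c + 1)) 2 c := by
  classical
  rintro ⟨f, hf1, hf2⟩
  have hind : ∀ u v, (G (c + 1) (2 * c + 1) (2 * c + 1)).Adj u v → ∀ l, f u = Sum.inl l →
      f v = Sum.inl l → False :=
    fun u v huv l hu hv => hf1 l hu hv huv.ne huv
  -- every `r l` has a distance-2 colour
  have hr : ∀ l : Fin (c + 1), (f (.inl (.r l))).isRight = true := by
    intro l
    rcases hrl : f (.inl (.r l)) with x | x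
    swap
    · rfl
    exfalso
    have key : ∀ i : Fin (2 * c + 1), (f (.inl (.h l i))).isRight = true ∨
        (f (.inl (.z l i))).isRight = true := by
      intro i
      rcases hh : f (.inl (.h l i)) with y | y
      swap
      · left; rfl
      rcases hz : f (.inl (.z l i)) with w | w
      swap
      · right; rfl
      exfalso
      have a1 : (G (c + 1) (2 * c + 1) (2 * c + 1)).Adj (.inl (.r l)) (.inl (.h l i)) := by
        show l = l
        rfl
      have b1 : x ≠ y := fun h => hind _ _ a1 x hrl (by rw [hh, h])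
      have b2 : x ≠ w := fun h => bundle_ne hf1 hf2 (by omega) (l, i, true) hrl
        (show f (.inl (.z l i)) = Sum.inl x by rw [hz, h])
      have b3 : y ≠ w := fun h => bundle_ne hf1 hf2 (by omega) (l, i, false) hh
        (show f (.inl (.z l i)) = Sum.inl y by rw [hz, h])
      omega
    have n1 := few hf2 (w := .inl (.r l))
      (f := fun i : Fin (2 * c + 1) => (.inl (.h l i) : BV (H6 (c + 1) (2 * c + 1)) _ (2 * c + 1)))
      (fun a b h => by simpa using h) (fun _ => by show l = l; rfl)
      (Finset.univ.filter (fun i => (f (.inl (.h l i))).isRight = true))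
      (fun i hi => (Finset.mem_filter.1 hi).2)
    have n2 := few hf2 (w := .inl (.s l))
      (f := fun i : Fin (2 * c + 1) => (.inl (.z l i) : BV (H6 (c + 1) (2 * c + 1)) _ (2 * c + 1)))
      (fun a b h => by simpa using h) (fun _ => by show l = l; rfl)
      (Finset.univ.filter (fun i => (f (.inl (.z l i))).isRight = true))
      (fun i hi => (Finset.mem_filter.1 hi).2)
    have n3 : (Finset.univ : Finset (Fin (2 * c + 1))) =
        Finset.univ.filter (fun i => (f (.inl (.h l i))).isRight = true) ∪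
        Finset.univ.filter (fun i => (f (.inl (.z l i))).isRight = true) := by
      ext i
      simp only [Finset.mem_univ, Finset.mem_union, Finset.mem_filter, true_and, true_iff]
      exact key i
    have n4 := Finset.card_union_le
      (Finset.univ.filter (fun i : Fin (2 * c + 1) => (f (.inl (.h l i))).isRight = true))
      (Finset.univ.filter (fun i : Fin (2 * c + 1) => (f (.inl (.z l i))).isRight = true))
    rw [← n3, Finset.card_univ, Fintype.card_fin] at n4
    omega
  have n1 := few hf2 (w := .inl .u)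
    (f := fun l : Fin (c + 1) => (.inl (.r l) : BV (H6 (c + 1) (2 * c + 1)) _ (2 * c + 1)))
    (fun a b h => by simpa using h) (fun _ => trivial) Finset.univ (fun l _ => hr l)
  rw [Finset.card_univ, Fintype.card_fin] at n1
  omega

end H6

end Pool.Agent.R59.D2
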